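import Pool.Agent.H902F.Hit
import Pool.Agent.H902D.Ring

set_option autoImplicit false

/-!
Elements of `ℤ[√d]` of small radical with prescribed direction modulo `P ^ r`.
-/

namespace Pool.Agent.H902F

open Finset
open Pool.Agent.H902D (phi phi_apply isUnit_int)

theorem point (T r : ℕ) (hr : r = 4 * T + 3) (hT : 1 ≤ T) (d : ℤ) (hd : d ≠ 0) :
    ∃ K P0 : ℕ, ∀ P : ℕ, P0 ≤ P → P.Prime → ∀ δ : ℤ, 1 ≤ δ → (P : ℤ) ^ r ∣ δ ^ 2 - d →
      ∀ ρ : ℤ, ¬ (P : ℤ) ∣ ρ ^ 2 - d → ∃ (l : ℤ) (f : Fin T → ℕ), 0 ≤ l ∧ l < P ∧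
        (P : ℤ) ∣ ρ - l ∧ (∀ i, f i ≤ K * P ^ 6) ∧
        ∀ β : ℤ√d, β = ⟨l, 1⟩ * ∏ i : Fin T, (⟨1, (((i : ℕ) : ℤ) + 1) * P⟩ : ℤ√d) ^ (f i) →
          (P : ℤ) ^ r ∣ β.re - β.im * ρ := by
  obtain ⟨K, P0, hhit⟩ := hit T r hr hT d hd
  refine ⟨K, P0 + 3 + d.natAbs, ?_⟩
  intro P hP0 hP δ hδ hδd ρ hρ
  have hPp : Prime (P : ℤ) := Nat.prime_iff_prime_int.1 hP
  have hr0 : r ≠ 0 := by omega
  have hP0' : (0 : ℤ) < P := by exact_mod_cast hP.pos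
  have : NeZero (P ^ r) := ⟨(pow_pos hP.pos r).ne'⟩
  have hδd1 : (P : ℤ) ∣ δ ^ 2 - d := (dvd_pow_self _ hr0).trans hδd
  have hPd : ¬ (P : ℤ) ∣ d := by
    intro h
    have h1 := Int.natAbs_dvd_natAbs.2 h
    rw [Int.natAbs_natCast] at h1
    exact absurd (Nat.le_of_dvd (Int.natAbs_pos.2 hd) h1) (by omega)
  have hPδ : ¬ (P : ℤ) ∣ δ := by
    intro h
    apply hPd
    have h2 := dvd_sub (h.trans (dvd_pow_self δ (by norm_num : 2 ≠ 0))) hδd1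
    rwa [sub_sub_cancel] at h2
  have hP2 : ¬ (P : ℤ) ∣ 2 := by
    intro h
    have := Int.le_of_dvd (by norm_num) h
    omega
  set l : ℤ := ρ % P with hl
  have hl0 : 0 ≤ l := Int.emod_nonneg _ hP0'.ne'
  have hlP : l < P := Int.emod_lt_of_pos _ hP0'
  have hρl : (P : ℤ) ∣ ρ - l := by
    rw [hl]
    exact Int.dvd_self_sub_emod
  -- nondivisibility
  have hρδ : ¬ (P : ℤ) ∣ (ρ + δ) * (ρ - δ) := by
    intro h
    apply hρ
    have h1 := dvd_add h hδd1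
    have h2 : (ρ + δ) * (ρ - δ) + (δ ^ 2 - d) = ρ ^ 2 - d := by ring
    rwa [h2] at h1
  have hb1 : ¬ (P : ℤ) ∣ ρ + δ := fun h => hρδ (h.mul_right _)
  have hb2 : ¬ (P : ℤ) ∣ ρ - δ := fun h => hρδ (h.mul_left _)
  have ha1 : ¬ (P : ℤ) ∣ l + δ := by
    intro h
    apply hb1
    have h1 := dvd_add h hρl
    have h2 : l + δ + (ρ - l) = ρ + δ := by ring
    rwa [h2] at h1
  have ha2 : ¬ (P : ℤ) ∣ l - δ := by
    intro h
    apply hb2
    have h1 := dvd_add h hρl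
    have h2 : l - δ + (ρ - l) = ρ - δ := by ring
    rwa [h2] at h1
  have hunit : ∀ n : ℤ, ¬ (P : ℤ) ∣ n → ∃ U : (ZMod (P ^ r))ˣ,
      (U : ZMod (P ^ r)) = ((n : ℤ) : ZMod (P ^ r)) := by
    intro n hn
    obtain ⟨U, hU⟩ := (isUnit_int hP hr0 n).2 hn
    exact ⟨U, hU⟩
  have hone : ∀ z : ℤ, ¬ (P : ℤ) ∣ 1 + z * P := by
    intro z h
    have h1 := dvd_sub h (dvd_mul_left (P : ℤ) z)
    rw [add_sub_cancel_right] at h1
    exact hPp.not_isUnit (isUnit_of_dvd_one h1)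
  obtain ⟨B1, hB1⟩ := hunit _ hb1
  obtain ⟨B2, hB2⟩ := hunit _ hb2
  obtain ⟨A1, hA1⟩ := hunit _ ha1
  obtain ⟨A2, hA2⟩ := hunit _ ha2
  choose V hV using fun i : Fin T => hunit (1 + ((i : ℕ) + 1 : ℤ) * (δ * P)) (by
    have := hone (((i : ℕ) + 1 : ℤ) * δ)
    rwa [mul_assoc] at this)
  choose W hW using fun i : Fin T => hunit (1 - ((i : ℕ) + 1 : ℤ) * (δ * P)) (by
    have := hone (-(((i : ℕ) + 1 : ℤ) * δ))
    have h1 : (1 - ((i : ℕ) + 1 : ℤ) * (δ * P)) = 1 + -(((i : ℕ) + 1 : ℤ) * δ) * P := by ring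
    rwa [h1])
  set Y : (ZMod (P ^ r))ˣ := B1 * B2⁻¹ * A2 * A1⁻¹ with hY
  set y : ℤ := ((Y : ZMod (P ^ r)).val : ℤ) with hy
  have hyY : (Y : ZMod (P ^ r)) = (y : ZMod (P ^ r)) := by
    rw [hy]
    push_cast
    exact (ZMod.natCast_zmod_val _).symm
  have hYrel : Y * B2 * A1 = B1 * A2 := by
    rw [hY]
    calc B1 * B2⁻¹ * A2 * A1⁻¹ * B2 * A1 = B1 * A2 * (B2⁻¹ * B2) * (A1⁻¹ * A1) := by
          ac_rfl
      _ = B1 * A2 := by simp
  have hy1 : (P : ℤ) ∣ y - 1 := by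
    have h1 : (P : ℤ) ^ r ∣ y * (ρ - δ) * (l + δ) - (ρ + δ) * (l - δ) := by
      have h2 : ((y * (ρ - δ) * (l + δ) - (ρ + δ) * (l - δ) : ℤ) : ZMod (P ^ r)) = 0 := by
        have h3 := congrArg (fun U : (ZMod (P ^ r))ˣ => (U : ZMod (P ^ r))) hYrel
        simp only [Units.val_mul, hyY, hB1, hB2, hA1, hA2] at h3
        push_cast at h3 ⊢
        linear_combination h3
      rw [ZMod.intCast_zmod_eq_zero_iff_dvd] at h2
      exact_mod_cast h2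
    have h2 : (P : ℤ) ∣ y * (ρ - δ) * (l + δ) - (ρ + δ) * (l - δ) := (dvd_pow_self _ hr0).trans h1
    obtain ⟨s, hs⟩ := hρl
    have h3 : (P : ℤ) ∣ ((ρ + δ) * (ρ - δ)) * (y - 1) := by
      obtain ⟨t, ht⟩ := h2
      refine ⟨t + y * (ρ - δ) * s - (ρ + δ) * s, ?_⟩
      have hl' : l = ρ - P * s := by linarith
      rw [hl'] at ht
      linear_combination ht
    exact (hPp.dvd_or_dvd h3).resolve_left hρδ
  obtain ⟨f, hf, hfY⟩ := hhit P (by omega) hP δ hδ hδd V W hV hW y Y hy1 hyY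
  refine ⟨l, f, hl0, hlP, hρl, fun i => (hf i).2, ?_⟩
  intro β hβ
  have hdd : ((δ : ℤ) : ZMod (P ^ r)) * ((δ : ℤ) : ZMod (P ^ r)) = ((d : ℤ) : ZMod (P ^ r)) := by
    have h1 : ((δ ^ 2 - d : ℤ) : ZMod (P ^ r)) = 0 := by
      rw [ZMod.intCast_zmod_eq_zero_iff_dvd]
      exact_mod_cast hδd
    push_cast at h1
    linear_combination h1
  have hdd' : (-((δ : ℤ) : ZMod (P ^ r))) * (-((δ : ℤ) : ZMod (P ^ r))) =
      ((d : ℤ) : ZMod (P ^ r)) := by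
    rw [neg_mul_neg]
    exact hdd
  have hplus : phi _ hdd β = (A1 : ZMod (P ^ r)) * ((∏ i, V i ^ f i : (ZMod (P ^ r))ˣ) :
      ZMod (P ^ r)) := by
    rw [hβ, map_mul, map_prod, phi_apply, Units.coe_prod, hA1]
    congr 1
    · push_cast
      ring
    · refine Finset.prod_congr rfl fun i _ => ?_
      rw [map_pow, phi_apply, Units.val_pow_eq_pow_val, hV]
      congr 1
      push_cast
      ring
  have hminus : phi _ hdd' β = (A2 : ZMod (P ^ r)) * ((∏ i, W i ^ f i : (ZMod (P ^ r))ˣ) :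
      ZMod (P ^ r)) := by
    rw [hβ, map_mul, map_prod, phi_apply, Units.coe_prod, hA2]
    congr 1
    · push_cast
      ring
    · refine Finset.prod_congr rfl fun i _ => ?_
      rw [map_pow, phi_apply, Units.val_pow_eq_pow_val, hW]
      congr 1
      push_cast
      ring
  have hVW : ∏ i, V i ^ f i = Y * ∏ i, W i ^ f i := by
    rw [← hfY, ← Finset.prod_mul_distrib]
    refine Finset.prod_congr rfl fun i _ => ?_
    rw [mul_pow, inv_pow, inv_mul_cancel_right]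
  have hfin : (A1 * ∏ i, V i ^ f i) * B2 = (A2 * ∏ i, W i ^ f i) * B1 := by
    rw [hVW]
    calc (A1 * (Y * ∏ i, W i ^ f i)) * B2 = (Y * B2 * A1) * ∏ i, W i ^ f i := by
          ac_rfl
      _ = (A2 * ∏ i, W i ^ f i) * B1 := by
          rw [hYrel]
          ac_rfl
  have hz := congrArg (fun U : (ZMod (P ^ r))ˣ => (U : ZMod (P ^ r))) hfin
  simp only [Units.val_mul] at hz
  rw [← hplus, ← hminus, hB1, hB2, phi_apply, phi_apply] at hz
  have hz2 : ((2 * δ * (β.re - β.im * ρ) : ℤ) : ZMod (P ^ r)) = 0 := by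
    push_cast at hz ⊢
    linear_combination (-1 : ZMod (P ^ r)) * hz
  rw [ZMod.intCast_zmod_eq_zero_iff_dvd] at hz2
  push_cast at hz2
  have hcop : IsCoprime ((P : ℤ) ^ r) (2 * δ) := by
    apply IsCoprime.pow_left
    rw [Prime.coprime_iff_not_dvd hPp]
    intro h
    rcases hPp.dvd_or_dvd h with h1 | h1
    · exact hP2 h1
    · exact hPδ h1
  exact hcop.dvd_of_dvd_mul_left hz2

end Pool.Agent.H902F
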