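import Pool.Agent.H902F.Form
import Pool.Agent.H902F.Pt

set_option autoImplicit false

/-!
Points on the projective line near a root of `f`, with small radical of the quadratic form.
-/

namespace Pool.Agent.H902F

open Finset Polynomial Zsqrtd
open Pool.Agent.H902A (rad rad_pos rad_le rad_mul_le rad_pow_le rad_prod_le)
open Pool.Agent.H902D (pp norm_pp wt wt_nonneg wt_mul wt_pow wt_prod re_le_wt im_le_wt)

theorem nd' (P : ℕ) (y : ℤ) (hy : y ≠ 0) (hyP : y.natAbs < P) : ¬ (P : ℤ) ∣ y := by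
  intro hd
  have h3 := Int.natAbs_dvd_natAbs.2 hd
  rw [Int.natAbs_natCast] at h3
  exact absurd (Nat.le_of_dvd (Int.natAbs_pos.2 hy) h3) (by omega)

theorem pt2 (a b c : ℤ) (ha : a ≠ 0) (d : ℤ) (hdef : d = b * b - 4 * a * c) (hd0 : d ≠ 0)
    (f : ℤ[X]) (hf0 : f ≠ 0) (hroot : ∀ t : ℚ, aeval t f ≠ 0) (T r : ℕ) (hr : r = 4 * T + 3)
    (hT : 1 ≤ T) : ∃ (K P0 : ℕ) (C1 : ℝ), 1 ≤ C1 ∧ ∀ P : ℕ, P0 ≤ P → P.Prime → ∀ δ : ℤ, 1 ≤ δ →
      (P : ℤ) ^ r ∣ δ ^ 2 - d → ∀ ρ : ℤ, (P : ℤ) ^ r ∣ f.eval ρ →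
      ¬ (P : ℤ) ∣ a * ρ ^ 2 + b * ρ + c → ∃ x y : ℤ, IsCoprime x y ∧
        a * x ^ 2 + b * x * y + c * y ^ 2 ≠ 0 ∧ F f x y ≠ 0 ∧ (P : ℤ) ^ r ∣ F f x y ∧
        (rad (a * x ^ 2 + b * x * y + c * y ^ 2).natAbs : ℝ) ≤ C1 * (P : ℝ) ^ (2 * T + 2) ∧
        |(x : ℝ)| ≤ (P : ℝ) ^ (4 + 2 * T * K * P ^ 6) ∧
        |(y : ℝ)| ≤ (P : ℝ) ^ (4 + 2 * T * K * P ^ 6) := by
  classical
  obtain ⟨K, P0, hpt⟩ := point T r hr hT d hd0
  set s : ℝ := Real.sqrt (d.natAbs : ℝ) with hs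
  have hs0 : 0 ≤ s := Real.sqrt_nonneg _
  set C1 : ℝ := |(a : ℝ)| * (2 * (1 + (T : ℝ) ^ 2 * |(d : ℝ)|) ^ T) with hC1
  have ha1 : (1 : ℝ) ≤ |(a : ℝ)| := by
    rw [← Int.cast_abs]
    exact_mod_cast Int.one_le_abs ha
  have hC11 : 1 ≤ C1 := by
    have h1 : (1 : ℝ) ≤ (1 + (T : ℝ) ^ 2 * |(d : ℝ)|) ^ T := by
      apply one_le_pow₀
      have : 0 ≤ (T : ℝ) ^ 2 * |(d : ℝ)| := by positivity
      linarith
    nlinarith
  refine ⟨K, P0 + 5 + a.natAbs + d.natAbs + ⌈1 + |(b : ℝ)| + 2 * |(a : ℝ)| + s * T + s⌉₊, C1,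
    hC11, ?_⟩
  intro P hP0 hP δ hδ hδd ρ hfρ hqρ
  have hPp : Prime (P : ℤ) := Nat.prime_iff_prime_int.1 hP
  have hr0 : r ≠ 0 := by omega
  have hPa := nd' P a ha (by omega)
  have hP2 : ¬ (P : ℤ) ∣ 2 := by
    intro h
    have := Int.le_of_dvd (by norm_num) h
    omega
  have hρ' : ¬ (P : ℤ) ∣ (2 * a * ρ + b) ^ 2 - d := by
    intro h
    have h1 : (2 * a * ρ + b) ^ 2 - d = 2 * (2 * (a * (a * ρ ^ 2 + b * ρ + c))) := by
      rw [hdef]; ring
    rw [h1] at h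
    rcases hPp.dvd_or_dvd h with h | h
    · exact hP2 h
    rcases hPp.dvd_or_dvd h with h | h
    · exact hP2 h
    rcases hPp.dvd_or_dvd h with h | h
    · exact hPa h
    · exact hqρ h
  obtain ⟨l, e, hl0, hlP, hρl, he, hβ⟩ := hpt P (by omega) hP δ hδ hδd (2 * a * ρ + b) hρ'
  set B : Fin T → ℤ√d := fun i => ⟨1, (((i : ℕ) : ℤ) + 1) * P⟩ with hB
  set β : ℤ√d := ⟨l, 1⟩ * ∏ i : Fin T, (B i) ^ (e i) with hβdef
  have hcong := hβ β rfl
  -- the norm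
  have hnorm : β.norm = (l * l - d) * ∏ i, (B i).norm ^ e i := by
    rw [hβdef, norm_mul]
    congr 1
    · rw [norm_def]
      ring
    · exact norm_pp B e
  have hBn : ∀ i, (B i).norm = 1 - d * (((((i : ℕ) : ℤ) + 1) * P) ^ 2) := by
    intro i
    rw [hB, norm_def]
    ring
  have hPN : ¬ (P : ℤ) ∣ β.norm := by
    intro h
    rw [hnorm] at h
    rcases hPp.dvd_or_dvd h with h1 | h1
    · apply hρ'
      obtain ⟨t, ht⟩ := hρl
      have h2 : (P : ℤ) ∣ (2 * a * ρ + b) ^ 2 - l * l := by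
        refine ⟨t * (2 * a * ρ + b + l), ?_⟩
        linear_combination (2 * a * ρ + b + l) * ht
      have h3 := dvd_add h2 h1
      have h4 : (2 * a * ρ + b) ^ 2 - l * l + (l * l - d) = (2 * a * ρ + b) ^ 2 - d := by ring
      rwa [h4] at h3
    · obtain ⟨i, -, hi⟩ := (hPp.dvd_finsetProd_iff _).1 h1
      have h2 := hPp.dvd_of_dvd_pow hi
      rw [hBn] at h2
      have h3 : (P : ℤ) ∣ d * (((((i : ℕ) : ℤ) + 1) * P) ^ 2) :=
        Dvd.dvd.mul_left ((dvd_mul_left _ _).trans (dvd_pow_self _ (by norm_num))) _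
      have h4 := dvd_add h2 h3
      rw [sub_add_cancel] at h4
      exact hPp.not_isUnit (isUnit_of_dvd_one h4)
  have hN0 : β.norm ≠ 0 := by
    intro h
    exact hPN (h ▸ dvd_zero _)
  set X : ℤ := β.re with hX
  set Y : ℤ := β.im with hY
  have hnXY : β.norm = X * X - d * Y * Y := norm_def β
  have hY0 : Y ≠ 0 := by
    intro h0
    apply hPN
    rw [h0, zero_mul, sub_zero] at hcong
    rw [hnXY, h0, mul_zero, sub_zero]
    exact ((dvd_pow_self _ hr0).trans hcong).mul_right _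
  have hy0 : 2 * a * Y ≠ 0 := mul_ne_zero (mul_ne_zero two_ne_zero ha) hY0
  have hg : 0 < Int.gcd (X - b * Y) (2 * a * Y) := Int.gcd_pos_of_ne_zero_right _ hy0
  obtain ⟨x, y, hxy, hx, hy⟩ := Int.exists_gcd_one hg
  set g : ℕ := Int.gcd (X - b * Y) (2 * a * Y) with hgdef
  have hQ : (g : ℤ) ^ 2 * (a * x ^ 2 + b * x * y + c * y ^ 2) = a * β.norm := by
    rw [hnXY]
    have : (g : ℤ) ^ 2 * (a * x ^ 2 + b * x * y + c * y ^ 2) =
      a * (x * g) ^ 2 + b * (x * g) * (y * g) + c * (y * g) ^ 2 := by ring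
    rw [this, ← hx, ← hy, hdef]
    ring
  have hcop : IsCoprime x y := Int.isCoprime_iff_gcd_eq_one.2 hxy
  have hne : x ≠ 0 ∨ y ≠ 0 := by
    by_contra hcon
    push Not at hcon
    rw [hcon.1, hcon.2] at hcop
    exact not_isCoprime_zero_zero hcop
  have hQ0 : a * x ^ 2 + b * x * y + c * y ^ 2 ≠ 0 := by
    intro h0
    rw [h0, mul_zero] at hQ
    exact mul_ne_zero ha hN0 hQ.symm
  have hPg : ¬ (P : ℤ) ∣ (g : ℤ) := by
    intro h
    have h1 : (P : ℤ) ∣ a * β.norm := by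
      rw [← hQ, pow_two, mul_assoc]
      exact h.mul_right _
    rcases hPp.dvd_or_dvd h1 with h2 | h2
    · exact hPa h2
    · exact hPN h2
  have hFP : (P : ℤ) ^ r ∣ F f x y := by
    have h1 : (P : ℤ) ^ r ∣ F f (X - b * Y) (2 * a * Y) := by
      refine F_congr f _ _ _ ρ ?_ hfρ
      have h2 : X - b * Y - 2 * a * Y * ρ = X - Y * (2 * a * ρ + b) := by ring
      rw [h2]
      exact hcong
    rw [hx, hy, F_smul] at h1
    exact (IsCoprime.pow ((Prime.coprime_iff_not_dvd hPp).2 hPg)).dvd_of_dvd_mul_right h1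
  have hF0 := F_ne f hf0 hroot x y hne
  -- sizes
  set p : ℝ := (P : ℝ) with hp
  have hbig : 1 + |(b : ℝ)| + 2 * |(a : ℝ)| + s * T + s ≤ p := by
    refine (Nat.le_ceil _).trans ?_
    rw [hp]
    exact_mod_cast (by omega : ⌈1 + |(b : ℝ)| + 2 * |(a : ℝ)| + s * T + s⌉₊ ≤ P)
  have hb0 := abs_nonneg (b : ℝ)
  have hT1 : (1 : ℝ) ≤ T := by exact_mod_cast hT
  have hsT : 0 ≤ s * T := by positivity
  have hp1 : 1 ≤ p := by linarith
  have hp0 : 0 < p := by linarith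
  have hp2 : p ≤ p ^ 2 := by nlinarith
  have hwl : wt (⟨l, 1⟩ : ℤ√d) ≤ p ^ 2 := by
    unfold wt
    simp only [Int.cast_one, abs_one, mul_one]
    rw [← hs]
    have h1 : |(l : ℝ)| ≤ p := by
      rw [abs_of_nonneg (by exact_mod_cast hl0)]
      have : (l : ℝ) ≤ ((P : ℤ) : ℝ) := by exact_mod_cast hlP.le
      simpa using this
    nlinarith
  have hwB : ∀ i, wt (B i) ≤ p ^ 2 := by
    intro i
    unfold wt
    rw [hB, ← hs]
    simp only [Int.cast_one, abs_one]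
    push_cast
    rw [abs_of_nonneg (by positivity), ← hp]
    have h1 : ((i : ℕ) : ℝ) + 1 ≤ T := by exact_mod_cast i.2
    have h2 : s * ((((i : ℕ) : ℝ) + 1) * p) ≤ s * (T * p) :=
      mul_le_mul_of_nonneg_left (mul_le_mul_of_nonneg_right h1 hp0.le) hs0
    nlinarith
  have hwβ : wt β ≤ p ^ (2 + 2 * T * K * P ^ 6) := by
    have h1 : wt β ≤ p ^ 2 * ∏ i : Fin T, (p ^ 2) ^ (K * P ^ 6) := by
      rw [hβdef]
      refine (wt_mul _ _).trans (mul_le_mul hwl ?_ (wt_nonneg _) (by positivity))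
      refine (wt_prod _ _).trans (Finset.prod_le_prod (fun i _ => wt_nonneg _) fun i _ => ?_)
      refine (wt_pow _ _).trans ?_
      refine (pow_le_pow_left₀ (wt_nonneg _) (hwB i) _).trans ?_
      exact pow_le_pow_right₀ (one_le_pow₀ hp1) (he i)
    refine h1.trans (le_of_eq ?_)
    rw [Finset.prod_const, Finset.card_univ, Fintype.card_fin, ← pow_mul, ← pow_mul, ← pow_add]
    congr 1
    ring
  have hg1 : (1 : ℝ) ≤ |((g : ℕ) : ℝ)| := by
    rw [Nat.abs_cast]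
    exact_mod_cast hg
  have hsize : ∀ w v : ℤ, w = v * g → |(v : ℝ)| ≤ |(w : ℝ)| := by
    intro w v h4
    rw [h4]
    push_cast
    rw [abs_mul]
    have := abs_nonneg (v : ℝ)
    nlinarith
  have hXw : |(X : ℝ)| ≤ p ^ (2 + 2 * T * K * P ^ 6) := (re_le_wt β).trans hwβ
  have hYw : |(Y : ℝ)| ≤ p ^ (2 + 2 * T * K * P ^ 6) := (im_le_wt hd0 β).trans hwβ
  set Z : ℝ := p ^ (2 + 2 * T * K * P ^ 6) with hZ
  have hZ0 : 0 ≤ Z := by positivity
  have hZ4 : p ^ (4 + 2 * T * K * P ^ 6) = p ^ 2 * Z := by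
    rw [hZ, ← pow_add]
    congr 1
    ring
  have hcp : 1 + |(b : ℝ)| + 2 * |(a : ℝ)| ≤ p ^ 2 := by linarith
  have hcZ := mul_le_mul_of_nonneg_right hcp hZ0
  refine ⟨x, y, hcop, hQ0, hF0, hFP, ?_, ?_, ?_⟩
  · -- the radical
    have hdvd : (a * x ^ 2 + b * x * y + c * y ^ 2).natAbs ∣ (a * β.norm).natAbs := by
      rw [← hQ, Int.natAbs_mul]
      exact dvd_mul_left _ _
    have h1 : rad (a * x ^ 2 + b * x * y + c * y ^ 2).natAbs ≤
        a.natAbs * ((l * l - d).natAbs * ∏ i, (B i).norm.natAbs) := by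
      refine (rad_mono hdvd (Int.natAbs_ne_zero.2 (mul_ne_zero ha hN0))).trans ?_
      rw [Int.natAbs_mul]
      refine (rad_mul_le _ _).trans (Nat.mul_le_mul (rad_le (Int.natAbs_ne_zero.2 ha)) ?_)
      rw [hnorm, Int.natAbs_mul]
      rw [hnorm] at hN0
      refine (rad_mul_le _ _).trans (Nat.mul_le_mul
        (rad_le (Int.natAbs_ne_zero.2 (left_ne_zero_of_mul hN0))) ?_)
      have h2 : (∏ i, (B i).norm ^ e i).natAbs = ∏ i, ((B i).norm.natAbs) ^ e i := by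
        rw [← Int.natAbsHom_apply, map_prod]
        refine Finset.prod_congr rfl fun i _ => ?_
        rw [map_pow, Int.natAbsHom_apply]
      rw [h2]
      refine (rad_prod_le _ _).trans (Finset.prod_le_prod' fun i _ => ?_)
      refine (rad_pow_le _ _).trans (rad_le (Int.natAbs_ne_zero.2 ?_))
      intro h0
      rw [hBn] at h0
      have h3 : (P : ℤ) ∣ d * (((((i : ℕ) : ℤ) + 1) * P) ^ 2) :=
        Dvd.dvd.mul_left ((dvd_mul_left _ _).trans (dvd_pow_self _ (by norm_num))) _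
      rw [← sub_eq_zero.1 h0] at h3
      exact hPp.not_isUnit (isUnit_of_dvd_one h3)
    have h2 : ((rad (a * x ^ 2 + b * x * y + c * y ^ 2).natAbs : ℕ) : ℝ) ≤
        ((a.natAbs * ((l * l - d).natAbs * ∏ i, (B i).norm.natAbs) : ℕ) : ℝ) := by
      exact_mod_cast h1
    refine h2.trans ?_
    push_cast
    rw [Nat.cast_natAbs, Nat.cast_natAbs, Int.cast_abs, Int.cast_abs]
    have hdp : |(d : ℝ)| ≤ p ^ 2 := by
      have h3 : (d.natAbs : ℝ) ≤ P := by exact_mod_cast (by omega : d.natAbs ≤ P)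
      rw [Nat.cast_natAbs, Int.cast_abs] at h3
      linarith
    have h3 : |((l * l - d : ℤ) : ℝ)| ≤ 2 * p ^ 2 := by
      push_cast
      have h4 : |(l : ℝ)| ≤ p := by
        rw [abs_of_nonneg (by exact_mod_cast hl0)]
        have : (l : ℝ) ≤ ((P : ℤ) : ℝ) := by exact_mod_cast hlP.le
        simpa using this
      calc |(l : ℝ) * l - d| ≤ |(l : ℝ) * l| + |(d : ℝ)| := abs_sub _ _
        _ = |(l : ℝ)| * |(l : ℝ)| + |(d : ℝ)| := by rw [abs_mul]
        _ ≤ 2 * p ^ 2 := by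
            have := abs_nonneg (l : ℝ)
            nlinarith
    have h4 : ∏ i, (((B i).norm.natAbs : ℕ) : ℝ) ≤
        ((1 + (T : ℝ) ^ 2 * |(d : ℝ)|) * p ^ 2) ^ T := by
      calc ∏ i, (((B i).norm.natAbs : ℕ) : ℝ) ≤
          ∏ _i : Fin T, ((1 + (T : ℝ) ^ 2 * |(d : ℝ)|) * p ^ 2) := by
            refine Finset.prod_le_prod (fun i _ => Nat.cast_nonneg _) fun i _ => ?_
            rw [Nat.cast_natAbs, Int.cast_abs, hBn]
            push_cast
            have h5 : ((i : ℕ) : ℝ) + 1 ≤ T := by exact_mod_cast i.2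
            have h6 : (0 : ℝ) ≤ ((i : ℕ) : ℝ) + 1 := by positivity
            have h7 : (((i : ℕ) : ℝ) + 1) ^ 2 ≤ (T : ℝ) ^ 2 := pow_le_pow_left₀ h6 h5 2
            calc |1 - (d : ℝ) * ((((i : ℕ) : ℝ) + 1) * P) ^ 2| ≤
                |(1 : ℝ)| + |(d : ℝ) * ((((i : ℕ) : ℝ) + 1) * P) ^ 2| := abs_sub _ _
              _ = 1 + |(d : ℝ)| * ((((i : ℕ) : ℝ) + 1) ^ 2 * p ^ 2) := by
                  rw [abs_one, abs_mul, abs_of_nonneg (by positivity :
                    (0 : ℝ) ≤ ((((i : ℕ) : ℝ) + 1) * P) ^ 2), mul_pow]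
              _ ≤ 1 * p ^ 2 + |(d : ℝ)| * ((T : ℝ) ^ 2 * p ^ 2) := by
                  refine add_le_add (by nlinarith) ?_
                  exact mul_le_mul_of_nonneg_left
                    (mul_le_mul_of_nonneg_right h7 (by positivity)) (abs_nonneg _)
              _ = _ := by ring
        _ = _ := by simp
    calc |(a : ℝ)| * (|((l * l - d : ℤ) : ℝ)| * ∏ i, (((B i).norm.natAbs : ℕ) : ℝ))
        ≤ |(a : ℝ)| * ((2 * p ^ 2) * ((1 + (T : ℝ) ^ 2 * |(d : ℝ)|) * p ^ 2) ^ T) := by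
          refine mul_le_mul_of_nonneg_left ?_ (abs_nonneg _)
          exact mul_le_mul h3 h4 (Finset.prod_nonneg fun i _ => Nat.cast_nonneg _) (by positivity)
      _ = C1 * p ^ (2 * T + 2) := by
          rw [hC1, mul_pow, ← pow_mul, pow_add]
          ring
  · refine (hsize _ _ hx).trans ?_
    push_cast
    rw [hZ4]
    calc |(X : ℝ) - b * Y| ≤ |(X : ℝ)| + |(b : ℝ) * Y| := abs_sub _ _
      _ = |(X : ℝ)| + |(b : ℝ)| * |(Y : ℝ)| := by rw [abs_mul]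
      _ ≤ Z + |(b : ℝ)| * Z := add_le_add hXw (mul_le_mul_of_nonneg_left hYw hb0)
      _ ≤ p ^ 2 * Z := by nlinarith
  · refine (hsize _ _ hy).trans ?_
    push_cast
    rw [hZ4, abs_mul, abs_mul, abs_two]
    calc 2 * |(a : ℝ)| * |(Y : ℝ)| ≤ 2 * |(a : ℝ)| * Z :=
          mul_le_mul_of_nonneg_left hYw (by positivity)
      _ ≤ p ^ 2 * Z := by nlinarith

end Pool.Agent.H902F
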