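import Pool.Agent.H902C.Root

set_option autoImplicit false

/-!
Simultaneous roots of an integer polynomial and of `X ^ 2 - d` modulo powers of large primes.
-/

namespace Pool.Agent.H902F

open Polynomial
open Pool.Agent.H902C (clear factor schur hensel)

theorem schur' (g : ℤ[X]) (hg : 0 < g.natDegree) (B : ℕ) :
    ∃ P : ℕ, P.Prime ∧ B < P ∧ ∃ x : ℤ, (P : ℤ) ∣ g.eval x := by
  have hg0 : g ≠ 0 := by
    rintro rfl
    simp at hg
  obtain ⟨x0, hx0⟩ : ∃ x0 : ℤ, g.eval x0 ≠ 0 := by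
    by_contra hcon
    push Not at hcon
    exact hg0 (Polynomial.funext fun x => by rw [hcon x, eval_zero])
  obtain ⟨P, hP, hB, x, hx⟩ := schur (g.comp (X + C x0)) (by
    rw [natDegree_comp, natDegree_X_add_C, mul_one]
    exact hg) (by simpa [eval_comp] using hx0) B
  exact ⟨P, hP, hB, x + x0, by simpa [eval_comp] using hx⟩

/-- a divisibility over `ℚ` gives one over `ℤ` -/
theorem dvd_clear (g p : ℤ[X]) (h : g.map (Int.castRingHom ℚ) ∣ p.map (Int.castRingHom ℚ)) :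
    ∃ (m : ℤ) (q : ℤ[X]), m ≠ 0 ∧ C m * p = g * q := by
  obtain ⟨q0, hq0⟩ := h
  obtain ⟨m, q, hm, hq⟩ := clear q0
  refine ⟨m, q, hm, ?_⟩
  apply Polynomial.map_injective (Int.castRingHom ℚ) Int.cast_injective
  rw [Polynomial.map_mul, Polynomial.map_mul, hq, hq0, Polynomial.map_C]
  simp only [eq_intCast]
  ring

theorem nd (P : ℕ) (y : ℤ) (hy : y ≠ 0) (hyP : y.natAbs < P) : ¬ (P : ℤ) ∣ y := by
  intro hd
  have h3 := Int.natAbs_dvd_natAbs.2 hd
  rw [Int.natAbs_natCast] at h3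
  exact absurd (Nat.le_of_dvd (Int.natAbs_pos.2 hy) h3) (by omega)

/-- roots modulo a large prime -/
theorem root_mod (d : ℤ) (f : ℤ[X]) (hf : 0 < f.natDegree) (B : ℕ) :
    ∃ P : ℕ, P.Prime ∧ B < P ∧ ∃ δ ρ : ℤ, (P : ℤ) ∣ δ ^ 2 - d ∧ (P : ℤ) ∣ f.eval ρ := by
  classical
  have hinj : Function.Injective (Polynomial.map (Int.castRingHom ℚ)) :=
    Polynomial.map_injective _ Int.cast_injective
  set fQ : ℚ[X] := f.map (Int.castRingHom ℚ) with hfQ
  have hf0 : f ≠ 0 := by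
    rintro rfl
    simp at hf
  have hfQ0 : fQ ≠ 0 := by
    intro h
    apply hf0
    apply hinj
    rw [Polynomial.map_zero]
    exact h
  set h2 : ℚ[X] := X ^ 2 - C (d : ℚ) with hh2
  have hh20 : h2 ≠ 0 := (monic_X_pow_sub_C (d : ℚ) (by norm_num)).ne_zero
  set L := (fQ * h2).SplittingField with hL
  have hsplit : ((fQ * h2).map (algebraMap ℚ L)).Splits := SplittingField.splits (fQ * h2)
  have hmap0 : (fQ * h2).map (algebraMap ℚ L) ≠ 0 :=
    Polynomial.map_ne_zero (mul_ne_zero hfQ0 hh20)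
  have hsf : (fQ.map (algebraMap ℚ L)).Splits := by
    refine Splits.of_dvd hsplit hmap0 ?_
    exact Polynomial.map_dvd _ (dvd_mul_right _ _)
  have hsh : (h2.map (algebraMap ℚ L)).Splits := by
    refine Splits.of_dvd hsplit hmap0 ?_
    exact Polynomial.map_dvd _ (dvd_mul_left _ _)
  have hfQd : fQ.natDegree = f.natDegree :=
    Polynomial.natDegree_map_eq_of_injective Int.cast_injective f
  obtain ⟨α, hα⟩ := hsf.exists_eval_eq_zero (by
    rw [Polynomial.degree_map]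
    exact (Polynomial.natDegree_pos_iff_degree_pos.1 (by rw [hfQd]; exact hf)).ne')
  obtain ⟨β, hβ⟩ := hsh.exists_eval_eq_zero (by
    rw [Polynomial.degree_map, degree_X_pow_sub_C (by norm_num)]
    norm_num)
  obtain ⟨θ, hθ⟩ := Field.exists_primitive_element ℚ L
  have hint : IsIntegral ℚ θ := Algebra.IsIntegral.isIntegral θ
  have hrange : ∀ y : L, ∃ p : ℚ[X], aeval θ p = y := by
    intro y
    have h1 : y ∈ IntermediateField.adjoin ℚ {θ} := by
      rw [hθ]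
      trivial
    rw [← IntermediateField.mem_toSubalgebra,
      IntermediateField.adjoin_simple_toSubalgebra_of_isAlgebraic hint.isAlgebraic,
      Algebra.adjoin_singleton_eq_range_aeval] at h1
    exact h1
  obtain ⟨a, ha⟩ := hrange α
  obtain ⟨b, hb⟩ := hrange β
  obtain ⟨D1, A1, hD1, hA1⟩ := clear a
  obtain ⟨D2, B1, hD2, hB1⟩ := clear b
  obtain ⟨m1, g, hm1, hg⟩ := clear (minpoly ℚ θ)
  have hm1Q : (m1 : ℚ) ≠ 0 := by exact_mod_cast hm1
  have haev : ∀ p : ℤ[X], aeval θ (p.map (Int.castRingHom ℚ)) = aeval θ p := by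
    intro p
    exact Polynomial.aeval_map_algebraMap ℚ θ p
  have hA1θ : aeval θ A1 = (D1 : L) * α := by
    rw [← haev, hA1, map_mul, ha, aeval_C]
    simp
  have hB1θ : aeval θ B1 = (D2 : L) * β := by
    rw [← haev, hB1, map_mul, hb, aeval_C]
    simp
  have hgdvd : ∀ p : ℤ[X], aeval θ p = 0 →
      g.map (Int.castRingHom ℚ) ∣ p.map (Int.castRingHom ℚ) := by
    intro p hp
    rw [hg]
    have h1 : minpoly ℚ θ ∣ p.map (Int.castRingHom ℚ) := minpoly.dvd ℚ θ (by rw [haev, hp])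
    have hu : IsUnit (C (m1 : ℚ)) := Polynomial.isUnit_C.2 (isUnit_iff_ne_zero.2 hm1Q)
    exact (hu.mul_left_dvd).2 h1
  have hαf : aeval α f = 0 := by
    rw [← Polynomial.aeval_map_algebraMap ℚ α f, Polynomial.aeval_def, ← Polynomial.eval_map]
    exact hα
  have hβd : β ^ 2 = (d : L) := by
    have h1 : eval β ((X ^ 2 - C (d : ℚ)).map (algebraMap ℚ L)) = 0 := hβ
    simp only [Polynomial.map_sub, Polynomial.map_pow, Polynomial.map_X,
      eval_sub, eval_pow, eval_X, map_intCast, Polynomial.map_intCast,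
      Polynomial.eval_intCast] at h1
    exact sub_eq_zero.1 h1
  obtain ⟨M1, q1, hM1, hq1⟩ := dvd_clear g ((scaleRoots f D1).comp A1) (hgdvd _ (by
    rw [aeval_comp, hA1θ]
    have := scaleRoots_eval₂_mul (p := f) (algebraMap ℤ L) α D1
    rw [← Polynomial.aeval_def, ← Polynomial.aeval_def, hαf, mul_zero] at this
    simpa using this))
  obtain ⟨M2, q2, hM2, hq2⟩ := dvd_clear g (B1 ^ 2 - C (d * D2 ^ 2)) (hgdvd _ (by
    rw [map_sub, map_pow, hB1θ, aeval_C]
    simp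
    rw [mul_pow, hβd]
    ring))
  have hgdeg : 0 < g.natDegree := by
    have h1 : (g.map (Int.castRingHom ℚ)).natDegree = (minpoly ℚ θ).natDegree := by
      rw [hg, Polynomial.natDegree_C_mul hm1Q]
    rw [Polynomial.natDegree_map_eq_of_injective Int.cast_injective] at h1
    rw [h1]
    exact minpoly.natDegree_pos hint
  obtain ⟨P, hP, hPB, t, ht⟩ := schur' g hgdeg
    (max B (max (D1.natAbs) (max D2.natAbs (max M1.natAbs M2.natAbs))))
  have hPp : Prime (P : ℤ) := Nat.prime_iff_prime_int.1 hP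
  have hPD1 := nd P D1 hD1 (by omega)
  have hPD2 := nd P D2 hD2 (by omega)
  have hPM1 := nd P M1 hM1 (by omega)
  have hPM2 := nd P M2 hM2 (by omega)
  have h1 : (P : ℤ) ∣ (scaleRoots f D1).eval (A1.eval t) := by
    have h3 := congrArg (Polynomial.eval t) hq1
    rw [eval_mul, eval_mul, eval_C, eval_comp] at h3
    have h4 : (P : ℤ) ∣ M1 * (scaleRoots f D1).eval (A1.eval t) := by
      rw [h3]
      exact ht.mul_right _
    exact (hPp.dvd_or_dvd h4).resolve_left hPM1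
  have h3 : (P : ℤ) ∣ (B1.eval t) ^ 2 - d * D2 ^ 2 := by
    have h3 := congrArg (Polynomial.eval t) hq2
    rw [eval_mul, eval_mul, eval_C, eval_sub, eval_pow, eval_C] at h3
    have h4 : (P : ℤ) ∣ M2 * ((B1.eval t) ^ 2 - d * D2 ^ 2) := by
      rw [h3]
      exact ht.mul_right _
    exact (hPp.dvd_or_dvd h4).resolve_left hPM2
  obtain ⟨v1, w1, hvw1⟩ := (Prime.coprime_iff_not_dvd hPp).2 hPD1
  obtain ⟨v2, w2, hvw2⟩ := (Prime.coprime_iff_not_dvd hPp).2 hPD2
  refine ⟨P, hP, by omega, B1.eval t * w2, A1.eval t * w1, ?_, ?_⟩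
  · have h5 : (P : ℤ) ∣ w2 ^ 2 * ((B1.eval t) ^ 2 - d * D2 ^ 2) := h3.mul_left _
    have h6 : (P : ℤ) ∣ d * (1 - (w2 * D2) ^ 2) := by
      refine ⟨d * v2 * (1 + w2 * D2), ?_⟩
      linear_combination (-d * (1 + w2 * D2)) * hvw2
    have h7 := dvd_sub h5 h6
    have h8 : (B1.eval t * w2) ^ 2 - d = w2 ^ 2 * ((B1.eval t) ^ 2 - d * D2 ^ 2) -
        d * (1 - (w2 * D2) ^ 2) := by ring
    rw [h8]
    exact h7
  · have h5 : (P : ℤ) ∣ (scaleRoots f D1).eval (D1 * (A1.eval t * w1)) := by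
      have h6 : (P : ℤ) ∣ D1 * (A1.eval t * w1) - A1.eval t := by
        refine ⟨-(A1.eval t * v1), ?_⟩
        linear_combination (A1.eval t) * hvw1
      have h7 := h6.trans (Polynomial.sub_dvd_eval_sub _ _ (scaleRoots f D1))
      have h8 := dvd_add h7 h1
      rwa [sub_add_cancel] at h8
    have h6 := scaleRoots_eval₂_mul (p := f) (RingHom.id ℤ) (A1.eval t * w1) D1
    simp only [RingHom.id_apply] at h6
    rw [Polynomial.eval₂_id, Polynomial.eval₂_id] at h6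
    rw [h6] at h5
    exact (hPp.dvd_or_dvd h5).resolve_left fun h7 => hPD1 (hPp.dvd_of_dvd_pow h7)

/-- simultaneous roots modulo powers of a large prime -/
theorem root2 (d : ℤ) (hd : d ≠ 0) (f : ℤ[X]) (hf : 0 < f.natDegree) (u v s : ℤ[X]) (Δ : ℤ)
    (hΔ : Δ ≠ 0) (huv : u * f + v * s = C Δ) (B : ℕ) :
    ∃ P : ℕ, P.Prime ∧ B < P ∧ ∀ K : ℕ, ∃ δ ρ : ℤ, 1 ≤ δ ∧ (P : ℤ) ^ (K + 1) ∣ δ ^ 2 - d ∧
      (P : ℤ) ^ (K + 1) ∣ f.eval ρ ∧ ¬ (P : ℤ) ∣ s.eval ρ := by
  obtain ⟨g, h, u1, v1, m, Δ1, hg, hm, hΔ1, h1, h2⟩ := factor f hf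
  obtain ⟨P, hP, hPB, δ0, ρ0, hδ0, hρ0⟩ := root_mod d g hg
    (max B (max 2 (max d.natAbs (max Δ.natAbs (max m.natAbs Δ1.natAbs)))))
  have hPp : Prime (P : ℤ) := Nat.prime_iff_prime_int.1 hP
  have hPd := nd P d hd (by omega)
  have hPΔ := nd P Δ hΔ (by omega)
  have hPm := nd P m hm (by omega)
  have hPΔ1 := nd P Δ1 hΔ1 (by omega)
  have hP2 := nd P 2 (by norm_num) (by
    have : (2 : ℤ).natAbs = 2 := rfl
    omega)
  have hPδ0 : ¬ (P : ℤ) ∣ δ0 := by
    intro h3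
    apply hPd
    have h4 := dvd_sub (h3.trans (dvd_pow_self δ0 (by norm_num : 2 ≠ 0))) hδ0
    rwa [sub_sub_cancel] at h4
  refine ⟨P, hP, by omega, fun K => ?_⟩
  obtain ⟨ρ, hρ1, hρ2⟩ := hensel g P hP ρ0 hρ0 (by
    intro h3
    apply hPΔ1
    have h4 := congrArg (Polynomial.eval ρ0) h2
    rw [eval_add, eval_mul, eval_mul, eval_C] at h4
    rw [← h4]
    exact dvd_add (hρ0.mul_left _) (h3.mul_left _)) K
  obtain ⟨δ, hδ1, hδ2⟩ := hensel (X ^ 2 - C d) P hP δ0 (by simpa using hδ0) (by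
    intro h3
    have h4 : (P : ℤ) ∣ 2 * δ0 := by simpa using h3
    rcases hPp.dvd_or_dvd h4 with h5 | h5
    · exact hP2 h5
    · exact hPδ0 h5) K
  simp only [eval_sub, eval_pow, eval_X, eval_C] at hδ2
  have hfρ : (P : ℤ) ^ (K + 1) ∣ f.eval ρ := by
    have h3 := congrArg (Polynomial.eval ρ) h1
    rw [eval_mul, eval_mul, eval_C] at h3
    have h4 : (P : ℤ) ^ (K + 1) ∣ m * f.eval ρ := by
      rw [h3]
      exact hρ2.mul_right _
    exact (IsCoprime.pow_left ((Prime.coprime_iff_not_dvd hPp).2 hPm)).dvd_of_dvd_mul_left h4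
  refine ⟨|δ|, ρ, ?_, by rwa [sq_abs], hfρ, ?_⟩
  · have h3 : δ ≠ 0 := by
      rintro rfl
      apply hPδ0
      rwa [zero_sub, dvd_neg] at hδ1
    exact Int.one_le_abs h3
  · intro h3
    apply hPΔ
    have h4 := congrArg (Polynomial.eval ρ) huv
    rw [eval_add, eval_mul, eval_mul, eval_C] at h4
    rw [← h4]
    exact dvd_add (((dvd_pow_self _ (Nat.succ_ne_zero K)).trans hfρ).mul_left _) (h3.mul_left _)

end Pool.Agent.H902F
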