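import Pool.Agent.H902F.Asm
import Pool.Agent.H902F.Root

set_option autoImplicit false

/-! The error term. -/

namespace Pool.Agent.H902F

open Finset Polynomial
open Pool.Agent.H902A (rad rad_pos rad_le rad_mul_le)
open Pool.Agent.H902C (clear)

theorem main (a b c : ℤ) (ha : a ≠ 0) (hd : b ^ 2 - 4 * a * c ≠ 0) (f : ℤ[X])
    (hf : 0 < f.natDegree) (hroot : ∀ t : ℚ, aeval t f ≠ 0)
    (hcop : IsCoprime (f.map (Int.castRingHom ℚ))
      ((C a * X ^ 2 + C b * X + C c : ℤ[X]).map (Int.castRingHom ℚ)))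
    (m : ℕ) (G : MvPolynomial (Fin 2) ℤ) (hG : G.IsHomogeneous m) (hG0 : G ≠ 0) (A D : ℝ) :
    ∃ x y : ℤ, IsCoprime x y ∧ a * x ^ 2 + b * x * y + c * y ^ 2 ≠ 0 ∧ F f x y ≠ 0 ∧
      MvPolynomial.eval ![x, y] G ≠ 0 ∧ D < Real.log ((max |x| |y| : ℤ) : ℝ) ∧
      ∑ q ∈ ((a * x ^ 2 + b * x * y + c * y ^ 2) * F f x y *
          MvPolynomial.eval ![x, y] G).natAbs.primeFactors, Real.log (q : ℝ) +
        A * Real.log (Real.log ((max |x| |y| : ℤ) : ℝ)) + D ≤
        (f.natDegree + m) * Real.log ((max |x| |y| : ℤ) : ℝ) := by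
  classical
  have hf0 : f ≠ 0 := by
    rintro rfl
    simp at hf
  set d : ℤ := b * b - 4 * a * c with hdef
  have hd0 : d ≠ 0 := by
    intro h0
    apply hd
    rw [← h0, hdef]
    ring
  -- the Bezout relation
  obtain ⟨u0, v0, huv0⟩ := hcop
  obtain ⟨m1, u1, hm1, hu1⟩ := clear u0
  obtain ⟨m2, v1, hm2, hv1⟩ := clear v0
  have hgen : ∀ qq : ℤ[X], u0 * f.map (Int.castRingHom ℚ) + v0 * qq.map (Int.castRingHom ℚ) = 1 →
      (C m2 * u1) * f + (C m1 * v1) * qq = C (m1 * m2) := by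
    intro qq h
    apply Polynomial.map_injective (Int.castRingHom ℚ) Int.cast_injective
    have hC : ∀ k : ℤ, (C k : ℤ[X]).map (Int.castRingHom ℚ) = C (k : ℚ) := by
      intro k
      rw [Polynomial.map_C]
      rfl
    simp only [Polynomial.map_add, Polynomial.map_mul, hu1, hv1, hC, C_mul]
    linear_combination (C (m1 : ℚ) * C (m2 : ℚ)) * h
  have huv := hgen _ huv0
  set T : ℕ := ⌈4 * |A|⌉₊ + 1 with hT
  have hTA : 4 * |A| + 1 ≤ (T : ℝ) := by
    rw [hT]
    push_cast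
    linarith [Nat.le_ceil (4 * |A|)]
  set r : ℕ := 4 * T + 3 with hr
  obtain ⟨K, P0, C1, hC1, hpt⟩ := pt2 a b c ha d hdef hd0 f hf0 hroot T r hr (by omega)
  obtain ⟨CF, hCF1, hCF⟩ := F_le f
  obtain ⟨CG, hCG1, hCG⟩ := H902D.form_le G m hG
  obtain ⟨AG, hAG⟩ := form_ne' G m hG hG0
  set n : ℕ := f.natDegree with hn
  have hlC1 : 0 ≤ Real.log C1 := Real.log_nonneg hC1
  have hlCF : 0 ≤ Real.log CF := Real.log_nonneg hCF1
  have hlCG : 0 ≤ Real.log CG := Real.log_nonneg hCG1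
  have hlAG : 0 ≤ Real.log ((AG : ℝ) + 1) := Real.log_nonneg (by
    have : (0 : ℝ) ≤ AG := Nat.cast_nonneg _
    linarith)
  set L1 : ℝ := Real.log C1 + Real.log CF + Real.log CG with hL1
  set L2 : ℝ := L1 + |D| + (Real.log CF + n * (|D| + 1 + Real.log ((AG : ℝ) + 1))) with hL2
  obtain ⟨P, hP, hPB, hroots⟩ := root2 d hd0 f hf (C m2 * u1) (C m1 * v1)
    (C a * X ^ 2 + C b * X + C c) (m1 * m2) (mul_ne_zero hm1 hm2) huv
    (P0 + ⌈Real.exp L2⌉₊ + (4 + 2 * T * K))
  obtain ⟨δ, ρ, hδ, hδd, hfρ, hqρ⟩ := hroots (r - 1)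
  have hr1 : r - 1 + 1 = r := by omega
  rw [hr1] at hδd hfρ
  simp only [eval_add, eval_mul, eval_C, eval_pow, eval_X] at hqρ
  obtain ⟨x, y, hxy, hQ0, hF0, hFP, hrad, hxP, hyP⟩ := hpt P (by omega) hP δ hδ hδd ρ hfρ hqρ
  set p : ℝ := (P : ℝ) with hp
  set lp : ℝ := Real.log p with hlp
  have hD0 := abs_nonneg D
  have hp1 : (1 : ℝ) < p := by
    rw [hp]
    exact_mod_cast hP.one_lt
  have hp0 : 0 < p := by linarith
  have hlp0 : 0 < lp := Real.log_pos hp1
  have hlpL : L2 ≤ lp := by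
    rw [hlp, Real.le_log_iff_exp_le hp0]
    refine (Nat.le_ceil _).trans ?_
    rw [hp]
    exact_mod_cast (by omega : ⌈Real.exp L2⌉₊ ≤ P)
  have hlpp : lp ≤ p := by
    have := Real.log_le_sub_one_of_pos hp0
    linarith
  -- the height
  set H : ℝ := ((max |x| |y| : ℤ) : ℝ) with hH
  have hxH : |(x : ℝ)| ≤ H := by
    rw [hH, ← Int.cast_abs]
    exact Int.cast_le.2 (le_max_left _ _)
  have hyH : |(y : ℝ)| ≤ H := by
    rw [hH, ← Int.cast_abs]
    exact Int.cast_le.2 (le_max_right _ _)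
  have hH1 : 1 ≤ H := by
    have h1 : x ≠ 0 ∨ y ≠ 0 := by
      by_contra hcon
      push Not at hcon
      rw [hcon.1, hcon.2] at hxy
      exact not_isCoprime_zero_zero hxy
    rw [hH]
    have h2 : (1 : ℤ) ≤ max |x| |y| := by
      rcases h1 with h1 | h1
      · exact (Int.one_le_abs h1).trans (le_max_left _ _)
      · exact (Int.one_le_abs h1).trans (le_max_right _ _)
    exact_mod_cast h2
  have hH0 : 0 < H := by linarith
  have hlH0 : 0 ≤ Real.log H := Real.log_nonneg hH1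
  have hFle := hCF x y H hH0.le hxH hyH
  have hn0 : (0 : ℝ) < n := by exact_mod_cast hf
  have hlow : r * lp ≤ Real.log CF + n * Real.log H := by
    have h1 : (p : ℝ) ^ r ≤ CF * H ^ n := by
      refine le_trans ?_ hFle
      have h2 := Int.le_of_dvd (abs_pos.2 hF0) ((dvd_abs _ _).2 hFP)
      rw [← Int.cast_abs, hp]
      exact_mod_cast h2
    have h2 := Real.log_le_log (by positivity) h1
    rw [Real.log_pow, Real.log_mul (by linarith) (by positivity), Real.log_pow] at h2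
    exact h2
  have hrlp : lp ≤ r * lp := by
    have h1 : (1 : ℝ) ≤ r := by
      rw [hr]
      push_cast
      have : (0 : ℝ) ≤ T := Nat.cast_nonneg _
      linarith
    nlinarith
  have hHlow : |D| + 1 + Real.log ((AG : ℝ) + 1) ≤ Real.log H := by
    have h1 : n * (|D| + 1 + Real.log ((AG : ℝ) + 1)) ≤ n * Real.log H := by linarith
    exact le_of_mul_le_mul_left h1 hn0
  have hHAG : (AG : ℝ) + 1 ≤ H := by
    have h1 : Real.log ((AG : ℝ) + 1) ≤ Real.log H := by linarith
    exact (Real.log_le_log_iff (by positivity) hH0).1 h1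
  have hGne : MvPolynomial.eval ![x, y] G ≠ 0 := by
    refine hAG x y hxy ?_
    have h1 : ((AG + 1 : ℕ) : ℝ) ≤ ((max x.natAbs y.natAbs : ℕ) : ℝ) := by
      push_cast
      rw [Nat.cast_natAbs, Nat.cast_natAbs]
      rw [hH] at hHAG
      push_cast at hHAG ⊢
      exact hHAG
    have h2 : AG + 1 ≤ max x.natAbs y.natAbs := by exact_mod_cast h1
    omega
  have hHP : H ≤ p ^ (4 + 2 * T * K * P ^ 6) := by
    rw [hH]
    push_cast
    exact max_le hxP hyP
  have hupp : Real.log H ≤ p ^ 8 := by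
    have h1 := Real.log_le_log hH0 hHP
    rw [Real.log_pow] at h1
    have h2 : ((4 + 2 * T * K * P ^ 6 : ℕ) : ℝ) ≤ p ^ 7 := by
      have h3 : 4 + 2 * T * K * P ^ 6 ≤ P ^ 7 := by
        have h4 : 1 ≤ P ^ 6 := Nat.one_le_pow _ _ hP.pos
        calc 4 + 2 * T * K * P ^ 6 ≤ 4 * P ^ 6 + 2 * T * K * P ^ 6 := by omega
          _ = (4 + 2 * T * K) * P ^ 6 := by ring
          _ ≤ P * P ^ 6 := Nat.mul_le_mul_right _ (by omega)
          _ = P ^ 7 := by ring
      rw [hp]
      exact_mod_cast h3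
    calc Real.log H ≤ ((4 + 2 * T * K * P ^ 6 : ℕ) : ℝ) * Real.log p := h1
      _ ≤ p ^ 7 * p := mul_le_mul h2 hlpp hlp0.le (by positivity)
      _ = p ^ 8 := by ring
  have hllH0 : 0 ≤ Real.log (Real.log H) := Real.log_nonneg (by linarith)
  have hllH : Real.log (Real.log H) ≤ 8 * lp := by
    have h1 := Real.log_le_log (by linarith : 0 < Real.log H) hupp
    rw [Real.log_pow] at h1
    push_cast at h1
    exact h1
  have hA : A * Real.log (Real.log H) ≤ |A| * (8 * lp) := by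
    calc A * Real.log (Real.log H) ≤ |A| * Real.log (Real.log H) :=
          mul_le_mul_of_nonneg_right (le_abs_self A) hllH0
      _ ≤ |A| * (8 * lp) := mul_le_mul_of_nonneg_left hllH (abs_nonneg A)
  refine ⟨x, y, hxy, hQ0, hF0, hGne, ?_, ?_⟩
  · have := le_abs_self D
    linarith
  -- the radical
  rw [log_rad]
  set Q : ℤ := a * x ^ 2 + b * x * y + c * y ^ 2 with hQ
  set g : ℤ := MvPolynomial.eval ![x, y] G with hg
  have hR : rad (Q * F f x y * g).natAbs ≤ rad Q.natAbs * rad (F f x y).natAbs * rad g.natAbs := by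
    rw [Int.natAbs_mul, Int.natAbs_mul]
    exact (rad_mul_le _ _).trans (Nat.mul_le_mul_right _ (rad_mul_le _ _))
  have hRQ : Real.log (rad Q.natAbs : ℝ) ≤ Real.log C1 + (2 * T + 2) * lp := by
    have h1 := Real.log_le_log (by exact_mod_cast rad_pos _) hrad
    rw [Real.log_mul (by linarith) (by positivity), Real.log_pow] at h1
    push_cast at h1
    exact h1
  have hRF : Real.log (rad (F f x y).natAbs : ℝ) + (4 * T + 2) * lp ≤
      Real.log CF + n * Real.log H := by
    have h1 := rad_pow_dvd (n := (F f x y).natAbs) (P := P) (r := r)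
      (Int.natAbs_ne_zero.2 hF0) hP (by omega) (by
        have := Int.natAbs_dvd_natAbs.2 hFP
        rwa [Int.natAbs_pow, Int.natAbs_natCast] at this)
    have h2 : (rad (F f x y).natAbs : ℝ) * p ^ (r - 1) ≤ CF * H ^ n := by
      refine le_trans ?_ hFle
      rw [← Int.cast_abs, ← Nat.cast_natAbs, hp]
      exact_mod_cast h1
    have hpos : (0 : ℝ) < (rad (F f x y).natAbs : ℝ) := by exact_mod_cast rad_pos _
    have h3 := Real.log_le_log (by positivity) h2
    rw [Real.log_mul hpos.ne' (by positivity), Real.log_pow,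
      Real.log_mul (by linarith) (by positivity), Real.log_pow] at h3
    have h4 : ((r - 1 : ℕ) : ℝ) = 4 * T + 2 := by
      have : r - 1 = 4 * T + 2 := by omega
      rw [this]
      push_cast
      ring
    rw [h4] at h3
    exact h3
  have hRG : Real.log (rad g.natAbs : ℝ) ≤ Real.log CG + m * Real.log H := by
    have h1 : (rad g.natAbs : ℝ) ≤ CG * H ^ m := by
      refine le_trans ?_ (hCG x y H hH0.le hxH hyH)
      rw [← Int.cast_abs, ← Nat.cast_natAbs]
      exact_mod_cast rad_le (Int.natAbs_ne_zero.2 hGne)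
    have h2 := Real.log_le_log (by exact_mod_cast rad_pos _) h1
    rw [Real.log_mul (by linarith) (by positivity), Real.log_pow] at h2
    exact h2
  have hlog : Real.log (rad (Q * F f x y * g).natAbs : ℝ) ≤ Real.log (rad Q.natAbs : ℝ) +
      Real.log (rad (F f x y).natAbs : ℝ) + Real.log (rad g.natAbs : ℝ) := by
    have h0 : ∀ k : ℕ, (rad k : ℝ) ≠ 0 := fun k => by exact_mod_cast (rad_pos k).ne'
    rw [← Real.log_mul (h0 _) (h0 _), ← Real.log_mul (mul_ne_zero (h0 _) (h0 _)) (h0 _)]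
    exact Real.log_le_log (by exact_mod_cast rad_pos _) (by exact_mod_cast hR)
  have hTl : (4 * |A| + 1) * lp ≤ T * lp := mul_le_mul_of_nonneg_right hTA hlp0.le
  have hDle := le_abs_self D
  have hlast : L1 + |D| ≤ 2 * lp := by
    have h1 : 0 ≤ Real.log CF + n * (|D| + 1 + Real.log ((AG : ℝ) + 1)) := by positivity
    linarith
  nlinarith

end Pool.Agent.H902F
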