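import Pool.Agent.H902D.Size
import Pool.Agent.H902A.Core

set_option autoImplicit false

/-!
Binary forms.
-/

namespace Pool.Agent.H902F

open Finset Polynomial

/-- the binary form `∑ f_k x ^ k y ^ (n - k)` -/
def F (f : ℤ[X]) (x y : ℤ) : ℤ :=
  ∑ k ∈ range (f.natDegree + 1), f.coeff k * x ^ k * y ^ (f.natDegree - k)

theorem F_mul (f : ℤ[X]) (t y : ℤ) : F f (y * t) y = y ^ f.natDegree * f.eval t := by
  unfold F
  rw [Polynomial.eval_eq_sum_range, Finset.mul_sum]
  refine Finset.sum_congr rfl fun k hk => ?_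
  have hk' : k ≤ f.natDegree := by
    have := Finset.mem_range.1 hk
    omega
  have h1 : y ^ f.natDegree = y ^ k * y ^ (f.natDegree - k) := by
    rw [← pow_add]
    congr 1
    omega
  rw [h1, mul_pow]
  ring

theorem F_congr (f : ℤ[X]) (M x y t : ℤ) (h : M ∣ x - y * t) (ht : M ∣ f.eval t) :
    M ∣ F f x y := by
  have h1 : M ∣ F f x y - F f (y * t) y := by
    unfold F
    rw [← Finset.sum_sub_distrib]
    refine Finset.dvd_sum fun k _ => ?_
    have h2 : f.coeff k * x ^ k * y ^ (f.natDegree - k) -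
        f.coeff k * (y * t) ^ k * y ^ (f.natDegree - k) =
        (x ^ k - (y * t) ^ k) * (f.coeff k * y ^ (f.natDegree - k)) := by ring
    rw [h2]
    exact (h.trans (sub_dvd_pow_sub_pow _ _ k)).mul_right _
  have h2 : M ∣ F f (y * t) y := by
    rw [F_mul]
    exact ht.mul_left _
  have h3 := dvd_add h1 h2
  rwa [sub_add_cancel] at h3

theorem F_smul (f : ℤ[X]) (g x y : ℤ) : F f (x * g) (y * g) = F f x y * g ^ f.natDegree := by
  unfold F
  rw [Finset.sum_mul]
  refine Finset.sum_congr rfl fun k hk => ?_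
  have hk' : k ≤ f.natDegree := by
    have := Finset.mem_range.1 hk
    omega
  have h1 : g ^ f.natDegree = g ^ k * g ^ (f.natDegree - k) := by
    rw [← pow_add]
    congr 1
    omega
  rw [h1, mul_pow, mul_pow]
  ring

theorem F_ne (f : ℤ[X]) (hf : f ≠ 0) (hroot : ∀ t : ℚ, aeval t f ≠ 0) (x y : ℤ)
    (h : x ≠ 0 ∨ y ≠ 0) : F f x y ≠ 0 := by
  by_cases hy : y = 0
  · have hx : x ≠ 0 := by
      rcases h with h | h
      · exact h
      · exact absurd hy h
    subst hy
    unfold F
    rw [Finset.sum_range_succ, Finset.sum_eq_zero, zero_add, Nat.sub_self, pow_zero, mul_one]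
    · exact mul_ne_zero (Polynomial.leadingCoeff_ne_zero.2 hf) (pow_ne_zero _ hx)
    · intro k hk
      have := Finset.mem_range.1 hk
      rw [zero_pow (by omega), mul_zero]
  · have hyQ : (y : ℚ) ≠ 0 := by exact_mod_cast hy
    intro h0
    apply hroot ((x : ℚ) / y)
    have h1 : ((F f x y : ℤ) : ℚ) = (y : ℚ) ^ f.natDegree * aeval ((x : ℚ) / y) f := by
      rw [Polynomial.aeval_eq_sum_range, Finset.mul_sum]
      unfold F
      push_cast
      refine Finset.sum_congr rfl fun k hk => ?_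
      have hk' : k ≤ f.natDegree := by
        have := Finset.mem_range.1 hk
        omega
      have h1 : (y : ℚ) ^ f.natDegree = (y : ℚ) ^ k * (y : ℚ) ^ (f.natDegree - k) := by
        rw [← pow_add]
        congr 1
        omega
      rw [h1, div_pow, zsmul_eq_mul]
      field_simp
    rw [h0, Int.cast_zero] at h1
    rcases mul_eq_zero.1 h1.symm with h2 | h2
    · exact absurd h2 (pow_ne_zero _ hyQ)
    · exact h2

theorem F_le (f : ℤ[X]) : ∃ A : ℝ, 1 ≤ A ∧ ∀ (x y : ℤ) (H : ℝ), 0 ≤ H → |(x : ℝ)| ≤ H →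
    |(y : ℝ)| ≤ H → |((F f x y : ℤ) : ℝ)| ≤ A * H ^ f.natDegree := by
  refine ⟨1 + ∑ k ∈ range (f.natDegree + 1), |((f.coeff k : ℤ) : ℝ)|, ?_, ?_⟩
  · have : 0 ≤ ∑ k ∈ range (f.natDegree + 1), |((f.coeff k : ℤ) : ℝ)| :=
      Finset.sum_nonneg fun _ _ => abs_nonneg _
    linarith
  · intro x y H hH hx hy
    unfold F
    push_cast
    calc |∑ k ∈ range (f.natDegree + 1), ((f.coeff k : ℤ) : ℝ) * (x : ℝ) ^ k *
        (y : ℝ) ^ (f.natDegree - k)| ≤ ∑ k ∈ range (f.natDegree + 1),
          |((f.coeff k : ℤ) : ℝ) * (x : ℝ) ^ k * (y : ℝ) ^ (f.natDegree - k)| :=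
          Finset.abs_sum_le_sum_abs _ _
      _ ≤ ∑ k ∈ range (f.natDegree + 1), |((f.coeff k : ℤ) : ℝ)| * H ^ f.natDegree := by
          refine Finset.sum_le_sum fun k hk => ?_
          have hk' : k ≤ f.natDegree := by
            have := Finset.mem_range.1 hk
            omega
          have h1 : H ^ f.natDegree = H ^ k * H ^ (f.natDegree - k) := by
            rw [← pow_add]
            congr 1
            omega
          rw [abs_mul, abs_mul, abs_pow, abs_pow, h1, mul_assoc]
          refine mul_le_mul_of_nonneg_left ?_ (abs_nonneg _)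
          exact mul_le_mul (pow_le_pow_left₀ (abs_nonneg _) hx _)
            (pow_le_pow_left₀ (abs_nonneg _) hy _) (by positivity) (by positivity)
      _ = (∑ k ∈ range (f.natDegree + 1), |((f.coeff k : ℤ) : ℝ)|) * H ^ f.natDegree :=
          (Finset.sum_mul _ _ _).symm
      _ ≤ _ := by
          have : 0 ≤ H ^ f.natDegree := by positivity
          nlinarith

/-- a form does not vanish at a primitive point of large height -/
theorem form_ne' (G : MvPolynomial (Fin 2) ℤ) (m : ℕ) (hG : G.IsHomogeneous m) (h0 : G ≠ 0) :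
    ∃ A : ℕ, ∀ x y : ℤ, IsCoprime x y → A < max x.natAbs y.natAbs →
      MvPolynomial.eval ![x, y] G ≠ 0 := by
  obtain ⟨A1, h1⟩ := H902D.form_ne G m hG h0
  obtain ⟨A2, h2⟩ := H902D.form_ne (MvPolynomial.rename (Equiv.swap (0 : Fin 2) 1) G) m
    (hG.rename_isHomogeneous) (by
      rw [Ne, map_eq_zero_iff _ (MvPolynomial.rename_injective _ (Equiv.injective _))]
      exact h0)
  refine ⟨max A1 A2, fun x y hxy h => ?_⟩
  rcases le_total x.natAbs y.natAbs with hle | hle
  · rw [max_eq_right hle] at h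
    exact h1 x y hxy (lt_of_le_of_lt (le_max_left _ _) h)
  · rw [max_eq_left hle] at h
    have h3 := h2 y x hxy.symm (lt_of_le_of_lt (le_max_right _ _) h)
    rw [MvPolynomial.eval_rename] at h3
    have h4 : (![y, x] : Fin 2 → ℤ) ∘ (Equiv.swap (0 : Fin 2) 1) = ![x, y] := by
      funext i
      fin_cases i <;> simp
    rwa [h4] at h3

open Pool.Agent.H902A (rad rad_pos rad_le rad_mul_le rad_pow_le rad_prod_le)

theorem rad_mono {m n : ℕ} (h : m ∣ n) (hn : n ≠ 0) : rad m ≤ rad n := by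
  unfold rad
  exact Finset.prod_le_prod_of_subset_of_one_le' (Nat.primeFactors_mono h hn)
    fun p hp _ => (Nat.prime_of_mem_primeFactors hp).one_lt.le

/-- the radical of a number divisible by `P ^ r` -/
theorem rad_pow_dvd {n P r : ℕ} (hn : n ≠ 0) (hP : P.Prime) (hr : 1 ≤ r) (h : P ^ r ∣ n) :
    rad n * P ^ (r - 1) ≤ n := by
  obtain ⟨s, rfl⟩ := h
  have hs : s ≠ 0 := by
    rintro rfl
    simp at hn
  have h1 : rad (P ^ r) ≤ P := (rad_pow_le _ _).trans (rad_le hP.ne_zero)
  have h2 : P ^ r = P * P ^ (r - 1) := by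
    rw [← pow_succ']
    congr 1
    omega
  calc rad (P ^ r * s) * P ^ (r - 1) ≤ (rad (P ^ r) * rad s) * P ^ (r - 1) :=
        Nat.mul_le_mul_right _ (rad_mul_le _ _)
    _ ≤ (P * s) * P ^ (r - 1) :=
        Nat.mul_le_mul_right _ (Nat.mul_le_mul h1 (rad_le hs))
    _ = P ^ r * s := by
        rw [h2]
        ring

theorem log_rad (n : ℕ) : ∑ q ∈ n.primeFactors, Real.log (q : ℝ) = Real.log (rad n : ℝ) := by
  unfold rad
  rw [Nat.cast_prod, Real.log_prod]
  intro p hp
  exact_mod_cast (Nat.prime_of_mem_primeFactors hp).ne_zero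

end Pool.Agent.H902F
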