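import Pool.Agent.H902F.Rel

set_option autoImplicit false

/-!
Every residue `≡ 1` is a product of the units with exponents between `1` and `K P ^ 6`.
-/

namespace Pool.Agent.H902F

open Finset
open Pool.Agent.H902A (reduce zpow_sum' gen)

/-- size of the values of a polynomial of degree at most three -/
theorem evb (p : Polynomial ℤ) (hp : p.natDegree ≤ 3) (x : ℤ) (hx : 1 ≤ |x|) :
    |p.eval x - p.coeff 3 * x ^ 3| ≤ (|p.coeff 0| + |p.coeff 1| + |p.coeff 2|) * |x| ^ 2 := by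
  rw [Polynomial.eval_eq_sum_range' (lt_of_le_of_lt hp (by norm_num : 3 < 4))]
  simp only [Finset.sum_range_succ, Finset.sum_range_zero, zero_add, pow_zero, mul_one, pow_one]
  have h0 := abs_nonneg (p.coeff 0)
  have h1 := abs_nonneg (p.coeff 1)
  have h2 := abs_nonneg (p.coeff 2)
  have hx2 : 1 ≤ |x| ^ 2 := one_le_pow₀ hx
  have hx3 : |x| ≤ |x| ^ 2 := by nlinarith
  calc |p.coeff 0 + p.coeff 1 * x + p.coeff 2 * x ^ 2 + p.coeff 3 * x ^ 3 - p.coeff 3 * x ^ 3|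
      = |p.coeff 0 + p.coeff 1 * x + p.coeff 2 * x ^ 2| := by congr 1; ring
    _ ≤ |p.coeff 0| + |p.coeff 1 * x| + |p.coeff 2 * x ^ 2| := abs_add_three _ _ _
    _ = |p.coeff 0| + |p.coeff 1| * |x| + |p.coeff 2| * |x| ^ 2 := by
        rw [abs_mul, abs_mul, abs_pow]
    _ ≤ (|p.coeff 0| + |p.coeff 1| + |p.coeff 2|) * |x| ^ 2 := by nlinarith

/-- the lattice of relations has a nearly diagonal basis -/
theorem lattice {T : ℕ} (r : ℕ) (hr : r = 4 * T + 3) (u : Fin T → ℤ) (hu : ∀ i, u i ≠ 0)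
    (hinj : Function.Injective fun i => u i ^ 2) :
    ∃ (Q : Fin T → Fin T → Polynomial ℤ), (∀ i j, (Q i j).natDegree ≤ 3) ∧
      (∀ i j, i ≠ j → (Q i j).coeff 3 = 0) ∧ (∀ i, 1 ≤ (Q i i).coeff 3) ∧
      ∀ (d : ℤ) (P : ℕ), P.Prime → ∀ δ : ℤ, 1 ≤ δ → (P : ℤ) ^ r ∣ δ ^ 2 - d →
      ∀ V W : Fin T → (ZMod (P ^ r))ˣ,
      (∀ i, (V i : ZMod (P ^ r)) = ((1 + u i * (δ * P) : ℤ) : ZMod (P ^ r))) →
      (∀ i, (W i : ZMod (P ^ r)) = ((1 - u i * (δ * P) : ℤ) : ZMod (P ^ r))) →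
      ∀ j, ∏ i, (V i * (W i)⁻¹) ^ ((Q i j).eval (d * (P : ℤ) ^ 2)) = 1 := by
  choose D E hD hE hE3 hES using fun j : Fin T =>
    exists_intvec u hu hinj (fun i => if i = j then 1 else 0)
  refine ⟨fun i j => Polynomial.C ((r.factorial : ℤ) ^ 2) * E j i, ?_, ?_, ?_, ?_⟩
  · intro i j
    exact (Polynomial.natDegree_C_mul_le _ _).trans (hE j i)
  · intro i j hij
    rw [Polynomial.coeff_C_mul, hE3, if_neg hij]
    ring
  · intro i
    rw [Polynomial.coeff_C_mul, hE3, if_pos rfl, mul_one]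
    have h1 : (0 : ℤ) < D i := by exact_mod_cast hD i
    have h2 : (0 : ℤ) < (r.factorial : ℤ) ^ 2 := by positivity
    nlinarith
  · intro d P hP δ hδ hδd V W hV hW j
    have h := unit_rel r hr u (E j) (hES j) d P hP δ hδ hδd V W hV hW
    rw [← h]
    refine Finset.prod_congr rfl fun i _ => ?_
    rw [Polynomial.eval_mul, Polynomial.eval_C]

/-- reduction of the exponents -/
theorem small_exponents {T : ℕ} (Q : Fin T → Fin T → Polynomial ℤ)
    (hQdeg : ∀ i j, (Q i j).natDegree ≤ 3) (hQoff : ∀ i j, i ≠ j → (Q i j).coeff 3 = 0)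
    (hQdiag : ∀ i, 1 ≤ (Q i i).coeff 3) : ∃ K x0 : ℕ, ∀ x : ℤ, (x0 : ℤ) ≤ |x| →
      ∀ (G : Type) [CommGroup G] (U : Fin T → G), (∀ j, ∏ i, U i ^ ((Q i j).eval x) = 1) →
      ∀ w : Fin T → ℤ, ∃ f : Fin T → ℕ, (∀ i, 1 ≤ f i ∧ (f i : ℤ) ≤ K * |x| ^ 3) ∧
        ∏ i, U i ^ (f i) = ∏ i, U i ^ (w i) := by
  set S2 : ℤ := ∑ i, ∑ j, (|(Q i j).coeff 0| + |(Q i j).coeff 1| + |(Q i j).coeff 2|) with hS2
  set S3 : ℤ := ∑ i, ∑ j, |(Q i j).coeff 3| with hS3
  have hS2nn : 0 ≤ S2 := Finset.sum_nonneg fun i _ => Finset.sum_nonneg fun j _ => by positivity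
  have hS3nn : 0 ≤ S3 := Finset.sum_nonneg fun i _ => Finset.sum_nonneg fun j _ => by positivity
  have h2 : ∀ i j, |(Q i j).coeff 0| + |(Q i j).coeff 1| + |(Q i j).coeff 2| ≤ S2 := by
    intro i j
    refine le_trans (Finset.single_le_sum (f := fun j => |(Q i j).coeff 0| + |(Q i j).coeff 1| +
      |(Q i j).coeff 2|) (fun j _ => by positivity) (Finset.mem_univ j)) ?_
    exact Finset.single_le_sum (f := fun i => ∑ j, (|(Q i j).coeff 0| + |(Q i j).coeff 1| +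
      |(Q i j).coeff 2|)) (fun i _ => Finset.sum_nonneg fun j _ => by positivity)
      (Finset.mem_univ i)
  have h3 : ∀ i j, |(Q i j).coeff 3| ≤ S3 := by
    intro i j
    refine le_trans (Finset.single_le_sum (f := fun j => |(Q i j).coeff 3|)
      (fun j _ => by positivity) (Finset.mem_univ j)) ?_
    exact Finset.single_le_sum (f := fun i => ∑ j, |(Q i j).coeff 3|)
      (fun i _ => Finset.sum_nonneg fun j _ => by positivity) (Finset.mem_univ i)
  refine ⟨(1 + 2 * T * (S2 + S3)).toNat, 1 + ((T + 1) * S2 + 1).toNat, ?_⟩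
  intro x hx G _ U hU w
  have hx1 : (1 : ℤ) ≤ |x| := by
    push_cast at hx
    linarith [Int.natCast_nonneg (((T : ℤ) + 1) * S2 + 1).toNat]
  have hxS : (T + 1) * S2 + 1 ≤ |x| := by
    push_cast at hx
    have := Int.self_le_toNat (((T : ℤ) + 1) * S2 + 1)
    linarith
  have hx3 : |x| ^ 2 ≤ |x| ^ 3 := pow_le_pow_right₀ hx1 (by norm_num)
  have hx2pos : (0 : ℤ) < |x| ^ 2 := by positivity
  set M : Matrix (Fin T) (Fin T) ℤ := fun i j => (Q i j).eval x with hM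
  have hev : ∀ i j, |M i j - (Q i j).coeff 3 * x ^ 3| ≤ S2 * |x| ^ 2 := by
    intro i j
    refine (evb _ (hQdeg i j) _ hx1).trans ?_
    exact mul_le_mul_of_nonneg_right (h2 i j) hx2pos.le
  have hB : ∀ i j, |M i j| ≤ (S2 + S3) * |x| ^ 3 := by
    intro i j
    calc |M i j| = |(M i j - (Q i j).coeff 3 * x ^ 3) + (Q i j).coeff 3 * x ^ 3| := by
          congr 1; ring
      _ ≤ |M i j - (Q i j).coeff 3 * x ^ 3| + |(Q i j).coeff 3 * x ^ 3| := abs_add_le _ _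
      _ ≤ S2 * |x| ^ 2 + S3 * |x| ^ 3 := by
          refine add_le_add (hev i j) ?_
          rw [abs_mul, abs_pow]
          exact mul_le_mul_of_nonneg_right (h3 i j) (by positivity)
      _ ≤ (S2 + S3) * |x| ^ 3 := by nlinarith
  have hdiag : ∀ i, ∑ j ∈ univ.erase i, |M i j| < |M i i| := by
    intro i
    have h4 : ∑ j ∈ univ.erase i, |M i j| ≤ T * (S2 * |x| ^ 2) := by
      calc ∑ j ∈ univ.erase i, |M i j| ≤ ∑ _j ∈ univ.erase i, S2 * |x| ^ 2 := by
            refine Finset.sum_le_sum fun j hj => ?_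
            have h5 := hev i j
            rw [hQoff i j (Finset.ne_of_mem_erase hj).symm, zero_mul, sub_zero] at h5
            exact h5
        _ ≤ ∑ _j : Fin T, S2 * |x| ^ 2 :=
            Finset.sum_le_sum_of_subset_of_nonneg (Finset.erase_subset _ _)
              (fun _ _ _ => by positivity)
        _ = T * (S2 * |x| ^ 2) := by simp
    have h6 : |x| ^ 3 - S2 * |x| ^ 2 ≤ |M i i| := by
      have h7 := hev i i
      have h8 : |x| ^ 3 ≤ |(Q i i).coeff 3 * x ^ 3| := by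
        rw [abs_mul, abs_pow]
        have := hQdiag i
        have h9 : (0 : ℤ) < |x| ^ 3 := by positivity
        have h10 := le_abs_self ((Q i i).coeff 3)
        nlinarith
      have h11 := abs_sub_abs_le_abs_sub ((Q i i).coeff 3 * x ^ 3) (M i i)
      rw [abs_sub_comm ((Q i i).coeff 3 * x ^ 3) (M i i)] at h11
      linarith
    have h10 : ((T + 1 : ℤ) * S2 + 1) * |x| ^ 2 ≤ |x| ^ 3 := by
      calc ((T + 1 : ℤ) * S2 + 1) * |x| ^ 2 ≤ |x| * |x| ^ 2 := by gcongr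
        _ = |x| ^ 3 := by ring
    nlinarith
  obtain ⟨t, ht⟩ := reduce M ((S2 + S3) * |x| ^ 3) hB hdiag w
  refine ⟨fun i => (w i - ∑ j, M i j * t j).toNat, fun i => ⟨?_, ?_⟩, ?_⟩
  · have h15 := (ht i).1
    have h16 : ((1 : ℕ) : ℤ) ≤ w i - ∑ j, M i j * t j := by exact_mod_cast h15
    exact (Int.le_toNat (by linarith)).2 h16
  · have h15 := (ht i).2
    have h17 : (0 : ℤ) ≤ 1 + 2 * T * (S2 + S3) := by positivity
    rw [Int.toNat_of_nonneg (by linarith [(ht i).1]), Int.toNat_of_nonneg h17]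
    have h18 : (1 : ℤ) ≤ |x| ^ 3 := one_le_pow₀ hx1
    nlinarith
  · have h11 : ∀ i, U i ^ (w i - ∑ j, M i j * t j).toNat =
        U i ^ (w i) * ∏ j, (U i ^ (M i j)) ^ (- t j) := by
      intro i
      rw [← zpow_natCast, Int.toNat_of_nonneg (by linarith [(ht i).1]), sub_eq_add_neg, zpow_add]
      congr 1
      have h12 : ∀ j, (U i ^ (M i j)) ^ (- t j) = U i ^ (- (M i j * t j)) := by
        intro j
        rw [← zpow_mul]
        congr 1
        ring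
      rw [Finset.prod_congr rfl fun j _ => h12 j, ← zpow_sum', Finset.sum_neg_distrib]
    rw [Finset.prod_congr rfl fun i _ => h11 i, Finset.prod_mul_distrib, Finset.prod_comm]
    have h13 : ∏ j, ∏ i, (U i ^ (M i j)) ^ (- t j) = 1 := by
      refine Finset.prod_eq_one fun j _ => ?_
      rw [Finset.prod_zpow]
      have := hU j
      rw [hM]
      simp only
      rw [this, one_zpow]
    rw [h13, mul_one]

/-- every residue `≡ 1 (mod P)` is a product of powers of the units `(1 + i δ P) / (1 - i δ P)` -/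
theorem hit (T r : ℕ) (hr : r = 4 * T + 3) (hT : 1 ≤ T) (d : ℤ) (hd : d ≠ 0) :
    ∃ K P0 : ℕ, ∀ P : ℕ, P0 ≤ P → P.Prime → ∀ δ : ℤ, 1 ≤ δ → (P : ℤ) ^ r ∣ δ ^ 2 - d →
      ∀ V W : Fin T → (ZMod (P ^ r))ˣ,
      (∀ i, (V i : ZMod (P ^ r)) = ((1 + ((i : ℕ) + 1 : ℤ) * (δ * P) : ℤ) : ZMod (P ^ r))) →
      (∀ i, (W i : ZMod (P ^ r)) = ((1 - ((i : ℕ) + 1 : ℤ) * (δ * P) : ℤ) : ZMod (P ^ r))) →
      ∀ (y : ℤ) (Y : (ZMod (P ^ r))ˣ), (P : ℤ) ∣ y - 1 → (Y : ZMod (P ^ r)) = (y : ZMod (P ^ r)) →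
      ∃ f : Fin T → ℕ, (∀ i, 1 ≤ f i ∧ f i ≤ K * P ^ 6) ∧
        ∏ i, (V i * (W i)⁻¹) ^ (f i) = Y := by
  obtain ⟨Q, hQdeg, hQoff, hQdiag, hQ⟩ := lattice r hr (T := T) (fun i => ((i : ℕ) + 1 : ℤ))
    (fun i => by positivity) (fun i j hij => by
      simp only at hij
      have h1 : ((i : ℕ) + 1 : ℤ) = ((j : ℕ) + 1 : ℤ) :=
        (pow_left_inj₀ (by positivity) (by positivity) (by norm_num)).1 hij
      apply Fin.ext
      omega)
  obtain ⟨K, x0, hK⟩ := small_exponents Q hQdeg hQoff hQdiag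
  refine ⟨K * d.natAbs ^ 3, 3 + x0 + d.natAbs, ?_⟩
  intro P hP0 hP δ hδ hδd V W hV hW y Y hy hY
  have hPp : Prime (P : ℤ) := Nat.prime_iff_prime_int.1 hP
  have hP3 : 3 ≤ P := by omega
  have hodd : Odd P := hP.odd_of_ne_two (by omega)
  have hPd : ¬ (P : ℤ) ∣ d := by
    intro h
    have h1 := Int.natAbs_dvd_natAbs.2 h
    rw [Int.natAbs_natCast] at h1
    exact absurd (Nat.le_of_dvd (Int.natAbs_pos.2 hd) h1) (by omega)
  have hr1 : 2 ≤ r := by omega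
  have hPδ : ¬ (P : ℤ) ∣ δ := by
    intro h
    apply hPd
    have h1 : (P : ℤ) ∣ δ ^ 2 - d := (dvd_pow_self _ (by omega)).trans hδd
    have h2 := dvd_sub (h.trans (dvd_pow_self δ (by norm_num : 2 ≠ 0))) h1
    rwa [sub_sub_cancel] at h2
  have hP2 : ¬ (P : ℤ) ∣ 2 := by
    intro h
    have := Int.le_of_dvd (by norm_num) h
    omega
  set i0 : Fin T := ⟨0, hT⟩ with hi0
  have : NeZero (P ^ r) := ⟨(pow_pos hP.pos r).ne'⟩
  set U0 : (ZMod (P ^ r))ˣ := V i0 * (W i0)⁻¹ with hU0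
  set m : ℕ := (U0 : ZMod (P ^ r)).val with hm
  have hmU : ((m : ℤ) : ZMod (P ^ r)) = (U0 : ZMod (P ^ r)) := by
    rw [hm]
    push_cast
    exact ZMod.natCast_zmod_val _
  have hrel : (P : ℤ) ^ r ∣ (m : ℤ) * (1 - δ * P) - (1 + δ * P) := by
    have h1 : (((m : ℤ) * (1 - δ * P) - (1 + δ * P) : ℤ) : ZMod (P ^ r)) = 0 := by
      have h2 := hV i0
      have h3 := hW i0
      have h4 : (U0 : ZMod (P ^ r)) * (W i0 : ZMod (P ^ r)) = (V i0 : ZMod (P ^ r)) := by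
        rw [← Units.val_mul, hU0, inv_mul_cancel_right]
      rw [h2, h3, ← hmU] at h4
      simp only [hi0] at h4
      push_cast at h4 ⊢
      linear_combination h4
    rw [ZMod.intCast_zmod_eq_zero_iff_dvd] at h1
    exact_mod_cast h1
  have hm1 : (P : ℤ) ∣ (m : ℤ) - 1 := by
    have h1 : (P : ℤ) ∣ (m : ℤ) * (1 - δ * P) - (1 + δ * P) :=
      (dvd_pow_self _ (by omega)).trans hrel
    have h2 : (P : ℤ) ∣ (m : ℤ) * (δ * P) + δ * P := ⟨m * δ + δ, by ring⟩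
    have h3 := dvd_add h1 h2
    have h4 : (m : ℤ) - 1 = (m : ℤ) * (1 - δ * P) - (1 + δ * P) + ((m : ℤ) * (δ * P) + δ * P) := by
      ring
    rw [h4]
    exact h3
  obtain ⟨a, ha⟩ := hm1
  have ha0 : 0 ≤ a := by
    by_contra hneg
    push Not at hneg
    have h1 : (P : ℤ) * a ≤ -(P : ℤ) := by nlinarith
    have h2 : (0 : ℤ) ≤ m := Int.natCast_nonneg m
    have h3 : (3 : ℤ) ≤ P := by exact_mod_cast hP3
    linarith
  have hcop : ¬ (P : ℤ) ∣ a := by
    intro h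
    have h1 : (P : ℤ) ^ 2 ∣ (m : ℤ) * (1 - δ * P) - (1 + δ * P) :=
      (pow_dvd_pow _ hr1).trans hrel
    obtain ⟨b, hb⟩ := h
    have hm2 : (m : ℤ) = 1 + P * a := by linarith
    have h2 : (P : ℤ) ^ 2 ∣ (P : ℤ) * (2 * δ) := by
      obtain ⟨s, hs⟩ := h1
      refine ⟨b - s - b * P * δ, ?_⟩
      rw [hm2, hb] at hs
      linear_combination (-1 : ℤ) * hs
    rw [pow_two] at h2
    have h3 := Int.dvd_of_mul_dvd_mul_left (by exact_mod_cast hP.ne_zero) h2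
    rcases hPp.dvd_or_dvd h3 with h4 | h4
    · exact hP2 h4
    · exact hPδ h4
  obtain ⟨a', rfl⟩ := Int.eq_ofNat_of_zero_le ha0
  have hcop' : Nat.Coprime a' P := by
    rw [Nat.coprime_comm, Nat.Prime.coprime_iff_not_dvd hP]
    intro h
    exact hcop (by exact_mod_cast h)
  obtain ⟨n, hn⟩ := gen a' P hodd hcop' y hy (r - 1)
  have hr' : r - 1 + 1 = r := by omega
  rw [hr'] at hn
  have hU0n : U0 ^ n = Y := by
    apply Units.ext
    rw [Units.val_pow_eq_pow_val, hY, ← hmU]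
    have h1 : (((1 + (a' : ℤ) * P) ^ n - y : ℤ) : ZMod (P ^ r)) = 0 := by
      rw [ZMod.intCast_zmod_eq_zero_iff_dvd]
      exact_mod_cast hn
    have h2 : (m : ℤ) = 1 + (a' : ℤ) * P := by linarith
    rw [h2]
    rw [Int.cast_sub, Int.cast_pow, sub_eq_zero] at h1
    exact h1
  have hzabs : |d * (P : ℤ) ^ 2| = (d.natAbs : ℤ) * (P : ℤ) ^ 2 := by
    rw [abs_mul, abs_of_nonneg (by positivity : (0 : ℤ) ≤ (P : ℤ) ^ 2), Int.natCast_natAbs]
  obtain ⟨f, hf, hfU⟩ := hK (d * (P : ℤ) ^ 2) (by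
    rw [hzabs]
    have h1 : (1 : ℤ) ≤ d.natAbs := by
      have := Int.natAbs_pos.2 hd
      exact_mod_cast this
    have h2 : (x0 : ℤ) ≤ P := by
      have : x0 ≤ P := by omega
      exact_mod_cast this
    have h3 : (3 : ℤ) ≤ P := by exact_mod_cast hP3
    nlinarith) _ (fun i => V i * (W i)⁻¹)
    (hQ d P hP δ hδ hδd V W hV hW) (fun i => if i = i0 then (n : ℤ) else 0)
  refine ⟨f, fun i => ⟨(hf i).1, ?_⟩, ?_⟩
  · have h1 := (hf i).2
    rw [hzabs] at h1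
    have h2 : ((f i : ℕ) : ℤ) ≤ ((K * d.natAbs ^ 3 * P ^ 6 : ℕ) : ℤ) := by
      push_cast
      refine h1.trans (le_of_eq ?_)
      push_cast
      ring
    exact_mod_cast h2
  · rw [hfU]
    rw [Finset.prod_eq_single i0]
    · rw [if_pos rfl, zpow_natCast]
      exact hU0n
    · intro j _ hj
      rw [if_neg hj, zpow_zero]
    · intro h
      exact absurd (Finset.mem_univ i0) h

end Pool.Agent.H902F
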