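import Pool.Agent.H902A.Exi

set_option autoImplicit false
set_option linter.unusedSimpArgs false

/-!
Combinations of the series `artanh (u X) / X` in `Z = X ^ 2` with polynomial coefficients.
-/

namespace Pool.Agent.H902F

open Finset Polynomial

/-- confluent Vandermonde -/
theorem conf {T : ℕ} (w : Fin T → ℚ) (hinj : Function.Injective w) (hw : ∀ i, w i ≠ 0)
    (α β : Fin T → ℚ) (h : ∀ n, n < 2 * T → ∑ i, w i ^ n * (α i + β i * n) = 0) (i : Fin T) :
    α i = 0 ∧ β i = 0 := by
  classical
  set l : ℚ[X] →ₗ[ℚ] ℚ := ∑ i, (α i • Polynomial.leval (w i) +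
    (β i * w i) • (Polynomial.leval (w i)).comp Polynomial.derivative) with hl
  have hlp : ∀ p : ℚ[X], l p = ∑ i, (α i * p.eval (w i) +
      β i * w i * (derivative p).eval (w i)) := by
    intro p
    rw [hl, LinearMap.sum_apply]
    rfl
  have hX : ∀ n, n < 2 * T → l (X ^ n) = 0 := by
    intro n hn
    rw [hlp, ← h n hn]
    refine Finset.sum_congr rfl fun i _ => ?_
    rw [eval_pow, eval_X, derivative_X_pow]
    cases n with
    | zero => simp
    | succ n =>
      simp only [Nat.add_sub_cancel, eval_mul, eval_pow, eval_X, eval_C]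
      push_cast
      ring
  have hp : ∀ p : ℚ[X], p.natDegree < 2 * T → l p = 0 := by
    intro p hpd
    rw [p.as_sum_range' (2 * T) hpd, map_sum]
    refine Finset.sum_eq_zero fun n hn => ?_
    rw [← mul_one (p.coeff n), ← smul_eq_mul, ← Polynomial.smul_monomial, map_smul,
      Polynomial.monomial_one_right_eq_X_pow, hX n (Finset.mem_range.1 hn), smul_zero]
  have hT : 0 < T := Fin.pos i
  set q : ℚ[X] := ∏ j ∈ univ.erase i, (X - C (w j)) ^ 2 with hq
  have hqd : q.natDegree = 2 * (T - 1) := by
    rw [hq, Polynomial.natDegree_prod _ _ (fun j _ => pow_ne_zero _ (X_sub_C_ne_zero _))]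
    have hd2 : ∀ j ∈ univ.erase i, ((X - C (w j)) ^ 2).natDegree = 2 := by
      intro j _
      rw [Polynomial.natDegree_pow, Polynomial.natDegree_X_sub_C]
    rw [Finset.sum_congr rfl hd2, Finset.sum_const, Finset.card_erase_of_mem (Finset.mem_univ i), Finset.card_univ,
      Fintype.card_fin]
    simp only [smul_eq_mul]
    ring
  have hqi : q.eval (w i) ≠ 0 := by
    rw [hq, Polynomial.eval_prod, Finset.prod_ne_zero_iff]
    intro j hj
    rw [eval_pow, eval_sub, eval_X, eval_C]
    exact pow_ne_zero _ (sub_ne_zero.2 fun hh => (Finset.ne_of_mem_erase hj) (hinj hh).symm)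
  have hqj : ∀ j, j ≠ i → ∃ s : ℚ[X], q = (X - C (w j)) ^ 2 * s := by
    intro j hj
    exact (Finset.dvd_prod_of_mem _ (Finset.mem_erase.2 ⟨hj, Finset.mem_univ j⟩))
  have hβ : β i = 0 := by
    have h1 := hp ((X - C (w i)) * q) (by
      rw [Polynomial.natDegree_mul (X_sub_C_ne_zero _) (by
        intro h0
        rw [h0, eval_zero] at hqi
        exact hqi rfl), Polynomial.natDegree_X_sub_C, hqd]
      omega)
    rw [hlp, Finset.sum_eq_single i] at h1
    · simp only [eval_mul, eval_sub, eval_X, eval_C, sub_self, zero_mul, mul_zero, zero_add,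
        derivative_mul, eval_add, derivative_sub, derivative_X, derivative_C, sub_zero, eval_one,
        one_mul, add_zero] at h1
      rcases mul_eq_zero.1 h1 with h2 | h2
      · rcases mul_eq_zero.1 h2 with h3 | h3
        · exact h3
        · exact absurd h3 (hw i)
      · exact absurd h2 hqi
    · intro j _ hj
      obtain ⟨s, hs⟩ := hqj j hj
      rw [hs]
      simp only [eval_mul, eval_sub, eval_X, eval_C, sub_self, zero_mul, mul_zero, zero_add,
        derivative_mul, eval_add, derivative_sub, derivative_X, derivative_C, sub_zero, eval_one,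
        one_mul, add_zero, eval_pow, derivative_pow]
      simp
    · intro hn
      exact absurd (Finset.mem_univ i) hn
  have hα : α i = 0 := by
    have h1 := hp q (by rw [hqd]; omega)
    rw [hlp, Finset.sum_eq_single i] at h1
    · rw [hβ] at h1
      rcases mul_eq_zero.1 (by linear_combination h1 : α i * q.eval (w i) = 0) with h2 | h2
      · exact h2
      · exact absurd h2 hqi
    · intro j _ hj
      obtain ⟨s, hs⟩ := hqj j hj
      rw [hs]
      simp only [eval_mul, eval_sub, eval_X, eval_C, sub_self, zero_mul, mul_zero, zero_add,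
        derivative_mul, eval_add, derivative_sub, derivative_X, derivative_C, sub_zero, eval_one,
        one_mul, add_zero, eval_pow, derivative_pow]
      simp
    · intro hn
      exact absurd (Finset.mem_univ i) hn
  exact ⟨hα, hβ⟩

/-- `artanh (u X) / X` as a series in `X ^ 2` -/
noncomputable def A (u : ℚ) : PowerSeries ℚ :=
  PowerSeries.mk fun n => u ^ (2 * n + 1) / (2 * n + 1)

theorem coeff_A (u : ℚ) (n : ℕ) : PowerSeries.coeff n (A u) = u ^ (2 * n + 1) / (2 * n + 1) := by
  rw [A, PowerSeries.coeff_mk]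

/-- the combination `∑ e_i A (u_i)` -/
noncomputable def S {T : ℕ} (u : Fin T → ℚ) (e : Fin T → Polynomial ℚ) : PowerSeries ℚ :=
  ∑ i, (e i : PowerSeries ℚ) * A (u i)

theorem S_add {T : ℕ} (u : Fin T → ℚ) (e f : Fin T → Polynomial ℚ) :
    S u (fun i => e i + f i) = S u e + S u f := by
  unfold S
  rw [← Finset.sum_add_distrib]
  refine Finset.sum_congr rfl fun i _ => ?_
  rw [Polynomial.coe_add, add_mul]

theorem S_smul {T : ℕ} (u : Fin T → ℚ) (c : ℚ) (e : Fin T → Polynomial ℚ) :
    S u (fun i => Polynomial.C c * e i) = PowerSeries.C c * S u e := by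
  unfold S
  rw [Finset.mul_sum]
  refine Finset.sum_congr rfl fun i _ => ?_
  rw [Polynomial.coe_mul, Polynomial.coe_C, mul_assoc]

theorem S_X {T : ℕ} (u : Fin T → ℚ) (e : Fin T → Polynomial ℚ) :
    S u (fun i => Polynomial.X * e i) = PowerSeries.X * S u e := by
  unfold S
  rw [Finset.mul_sum]
  refine Finset.sum_congr rfl fun i _ => ?_
  rw [Polynomial.coe_mul, Polynomial.coe_X, mul_assoc]

open Pool.Agent.H902A (lin lin_add lin_smul natDegree_lin)

/-- the coefficients of index `1, …, 2 T` -/
noncomputable def Phi {T : ℕ} (u : Fin T → ℚ) :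
    ((Fin T → ℚ) × (Fin T → ℚ)) →ₗ[ℚ] (Fin (2 * T) → ℚ) where
  toFun p := fun n => PowerSeries.coeff (n.1 + 1) (S u (lin p.1 p.2))
  map_add' p q := by
    funext n
    rw [Prod.fst_add, Prod.snd_add, lin_add, S_add]
    simp
  map_smul' c p := by
    funext n
    rw [Prod.smul_fst, Prod.smul_snd, lin_smul, S_smul]
    simp [PowerSeries.coeff_C_mul]

theorem coeff_lin {T : ℕ} (u a b : Fin T → ℚ) (n : ℕ) :
    PowerSeries.coeff (n + 1) (S u (lin a b)) = ∑ i, (a i * (u i ^ (2 * n + 3) / (2 * n + 3)) +
      b i * (u i ^ (2 * n + 1) / (2 * n + 1))) := by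
  unfold S lin
  rw [map_sum]
  refine Finset.sum_congr rfl fun i _ => ?_
  rw [Polynomial.coe_add, Polynomial.coe_mul, Polynomial.coe_C, Polynomial.coe_C,
    Polynomial.coe_X, add_mul, map_add, PowerSeries.coeff_C_mul, mul_assoc,
    PowerSeries.coeff_C_mul, PowerSeries.coeff_succ_X_mul, coeff_A, coeff_A]
  push_cast
  congr 2
  · congr 1
    ring

theorem Phi_surj {T : ℕ} (u : Fin T → ℚ) (hu : ∀ i, u i ≠ 0)
    (hinj : Function.Injective fun i => u i ^ 2) : Function.Surjective (Phi u) := by
  rw [← LinearMap.injective_iff_surjective_of_finrank_eq_finrank]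
  · rw [injective_iff_map_eq_zero]
    intro p hp
    obtain ⟨a, b⟩ := p
    have h := conf (fun i => u i ^ 2) hinj (fun i => pow_ne_zero 2 (hu i))
      (fun i => u i * (a i * u i ^ 2 + 3 * b i)) (fun i => 2 * u i * (a i * u i ^ 2 + b i))
      (fun n hn => by
        have h3 := congrFun hp ⟨n, hn⟩
        change PowerSeries.coeff (n + 1) (S u (lin a b)) = 0 at h3
        rw [coeff_lin] at h3
        have h1 : (2 * (n : ℚ) + 1) ≠ 0 := by positivity
        have h2 : (2 * (n : ℚ) + 3) ≠ 0 := by positivity
        have h4 : (2 * (n : ℚ) + 1) * (2 * n + 3) * ∑ i, (a i * (u i ^ (2 * n + 3) / (2 * n + 3)) +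
            b i * (u i ^ (2 * n + 1) / (2 * n + 1))) = 0 := by
          rw [h3, mul_zero]
        rw [← h4, Finset.mul_sum]
        refine Finset.sum_congr rfl fun i _ => ?_
        field_simp
        ring)
    have ha : ∀ i, a i = 0 ∧ b i = 0 := by
      intro i
      obtain ⟨h1, h2⟩ := h i
      have h5 := hu i
      have h3 : a i * u i ^ 2 + 3 * b i = 0 := by
        rcases mul_eq_zero.1 h1 with h4 | h4
        · exact absurd h4 h5
        · exact h4
      have h4 : a i * u i ^ 2 + b i = 0 := by
        rcases mul_eq_zero.1 h2 with h6 | h6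
        · rcases mul_eq_zero.1 h6 with h7 | h7
          · norm_num at h7
          · exact absurd h7 h5
        · exact h6
      have hb : b i = 0 := by linarith
      rw [hb, add_zero] at h4
      rcases mul_eq_zero.1 h4 with h6 | h6
      · exact ⟨h6, hb⟩
      · exact absurd h6 (pow_ne_zero 2 h5)
    exact Prod.ext (funext fun i => (ha i).1) (funext fun i => (ha i).2)
  · simp [two_mul]

/-- the coefficients of index `1, …, 2 T` vanish -/
def Good {T : ℕ} (u : Fin T → ℚ) (e : Fin T → Polynomial ℚ) : Prop :=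
  ∀ n, 1 ≤ n → n ≤ 2 * T → PowerSeries.coeff n (S u e) = 0

theorem exists_good {T : ℕ} (u : Fin T → ℚ) (hu : ∀ i, u i ≠ 0)
    (hinj : Function.Injective fun i => u i ^ 2)
    (f : Fin T → Polynomial ℚ) : ∃ a b : Fin T → ℚ, Good u (fun i => lin a b i + f i) := by
  obtain ⟨p, hp⟩ := Phi_surj u hu hinj (fun n => - PowerSeries.coeff (n.1 + 1) (S u f))
  refine ⟨p.1, p.2, fun n h2 hn => ?_⟩
  rw [S_add, map_add]
  have h3 := congrFun hp ⟨n - 1, by omega⟩
  have h4 : n - 1 + 1 = n := by omega
  change PowerSeries.coeff (n - 1 + 1) (S u (lin p.1 p.2)) =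
    - PowerSeries.coeff (n - 1 + 1) (S u f) at h3
  rw [h4] at h3
  rw [h3]
  ring

/-- for every `v` there is a vector of polynomials of degree at most `3`, with coefficients `v` of
`X ^ 3`, for which the combination vanishes to order `2 T + 1` -/
theorem exists_vec {T : ℕ} (u : Fin T → ℚ) (hu : ∀ i, u i ≠ 0)
    (hinj : Function.Injective fun i => u i ^ 2)
    (v : Fin T → ℚ) : ∃ e : Fin T → Polynomial ℚ, (∀ i, (e i).natDegree ≤ 3) ∧
      (∀ i, (e i).coeff 3 = v i) ∧ ∀ n, n < 2 * T + 1 → PowerSeries.coeff n (S u e) = 0 := by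
  by_cases hc : ∃ e0 : Fin T → Polynomial ℚ, (∀ i, (e0 i).natDegree ≤ 2) ∧ Good u e0 ∧
      PowerSeries.coeff 0 (S u e0) ≠ 0
  · obtain ⟨e0, hdeg, hgood, hne⟩ := hc
    obtain ⟨a, b, hab⟩ := exists_good u hu hinj (fun i => Polynomial.C (v i) * Polynomial.X ^ 3)
    set e : Fin T → Polynomial ℚ := fun i => lin a b i + Polynomial.C (v i) * Polynomial.X ^ 3
      with he
    set c : ℚ := - (PowerSeries.coeff 0 (S u e) / PowerSeries.coeff 0 (S u e0)) with hcdef
    refine ⟨fun i => e i + Polynomial.C c * e0 i, ?_, ?_, ?_⟩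
    · intro i
      refine (Polynomial.natDegree_add_le _ _).trans (max_le ?_ ?_)
      · refine (Polynomial.natDegree_add_le _ _).trans (max_le ?_ ?_)
        · exact (natDegree_lin a b i).trans (by norm_num)
        · compute_degree
      · exact (Polynomial.natDegree_C_mul_le _ _).trans ((hdeg i).trans (by norm_num))
    · intro i
      rw [Polynomial.coeff_add, Polynomial.coeff_C_mul,
        Polynomial.coeff_eq_zero_of_natDegree_lt (lt_of_le_of_lt (hdeg i) (by norm_num)), he]
      simp only [Polynomial.coeff_add]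
      rw [Polynomial.coeff_eq_zero_of_natDegree_lt
        (lt_of_le_of_lt (natDegree_lin a b i) (by norm_num))]
      simp
    · intro n hn
      rw [S_add, S_smul, map_add, PowerSeries.coeff_C_mul]
      rcases Nat.eq_zero_or_pos n with h2 | h2
      · subst h2
        rw [hcdef]
        field_simp
        ring
      · rw [hab n h2 (by omega), hgood n h2 (by omega)]
        ring
  · push Not at hc
    obtain ⟨a, b, hab⟩ := exists_good u hu hinj (fun i => Polynomial.C (v i) * Polynomial.X ^ 2)
    set e : Fin T → Polynomial ℚ := fun i => lin a b i + Polynomial.C (v i) * Polynomial.X ^ 2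
      with he
    have hdeg : ∀ i, (e i).natDegree ≤ 2 := by
      intro i
      refine (Polynomial.natDegree_add_le _ _).trans (max_le ?_ ?_)
      · exact (natDegree_lin a b i).trans (by norm_num)
      · compute_degree
    have h1 := hc e hdeg hab
    refine ⟨fun i => Polynomial.X * e i, ?_, ?_, ?_⟩
    · intro i
      refine (Polynomial.natDegree_mul_le).trans ?_
      have h2 := hdeg i
      have h3 : (Polynomial.X : Polynomial ℚ).natDegree ≤ 1 := Polynomial.natDegree_X_le
      omega
    · intro i
      rw [show (3 : ℕ) = 2 + 1 by norm_num, Polynomial.coeff_X_mul, he]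
      simp only [Polynomial.coeff_add]
      rw [Polynomial.coeff_eq_zero_of_natDegree_lt
        (lt_of_le_of_lt (natDegree_lin a b i) (by norm_num))]
      simp
    · intro n hn
      rw [S_X]
      cases n with
      | zero => simp
      | succ n =>
        rw [PowerSeries.coeff_succ_X_mul]
        rcases Nat.eq_zero_or_pos n with h2 | h2
        · subst h2
          exact h1
        · exact hab n h2 (by omega)

end Pool.Agent.H902F
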