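import Pool.Agent.H902F.Lin
import Pool.Agent.H902A.Geo

set_option autoImplicit false

/-!
Relations between the units `(1 + u_i δ P) / (1 - u_i δ P)` modulo `P ^ (4 T + 3)`, where
`δ ^ 2 = d`.
-/

namespace Pool.Agent.H902F

open Finset
open Pool.Agent.H902A (phi coeff_phi exp_dvd exists_int)

theorem coeff_diff (u : ℚ) (n : ℕ) :
    PowerSeries.coeff n (H902A.L u - H902A.L (-u)) = if Even n then 0 else 2 * u ^ n / n := by
  rw [map_sub, H902A.coeff_L, H902A.coeff_L]
  rcases Nat.eq_zero_or_pos n with h0 | h0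
  · subst h0
    simp
  · rw [if_neg h0.ne', if_neg h0.ne']
    rcases Nat.even_or_odd n with he | ho
    · rw [if_pos he, he.neg_pow]
      ring
    · rw [if_neg (Nat.not_even_iff_odd.2 ho), ho.neg_pow, (ho.add_odd odd_one).neg_one_pow]
      ring

/-- the coefficients of `E (X ^ 2) (log (1 + u X) - log (1 - u X))` -/
theorem coeff_expand (E : Polynomial ℤ) (u : ℚ) :
    (∀ m, PowerSeries.coeff (2 * m) (phi (Polynomial.expand ℤ 2 E) *
      (H902A.L u - H902A.L (-u))) = 0) ∧
    ∀ m, PowerSeries.coeff (2 * m + 1) (phi (Polynomial.expand ℤ 2 E) *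
      (H902A.L u - H902A.L (-u))) = 2 * PowerSeries.coeff m (phi E * A u) := by
  induction E using Polynomial.induction_on' with
  | add p q hp hq =>
    constructor
    · intro m
      rw [map_add, map_add, add_mul, map_add, hp.1 m, hq.1 m, add_zero]
    · intro m
      rw [map_add, map_add, add_mul, map_add, hp.2 m, hq.2 m, map_add phi, add_mul, map_add]
      ring
  | monomial k a =>
    have h1 : phi (Polynomial.expand ℤ 2 (Polynomial.monomial k a)) =
        PowerSeries.C (a : ℚ) * PowerSeries.X ^ (2 * k) := by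
      rw [Polynomial.expand_monomial, ← Polynomial.C_mul_X_pow_eq_monomial, map_mul, map_pow,
        H902A.phi_C, H902A.phi_X, mul_comm k 2]
    have h2 : phi (Polynomial.monomial k a) = PowerSeries.C (a : ℚ) * PowerSeries.X ^ k := by
      rw [← Polynomial.C_mul_X_pow_eq_monomial, map_mul, map_pow, H902A.phi_C, H902A.phi_X]
    constructor
    · intro m
      rw [h1, mul_assoc, PowerSeries.coeff_C_mul, PowerSeries.coeff_X_pow_mul']
      split_ifs with h
      · rw [coeff_diff, if_pos (by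
          rw [← Nat.mul_sub]
          exact even_two_mul _), mul_zero]
      · rw [mul_zero]
    · intro m
      rw [h1, h2, mul_assoc, mul_assoc, PowerSeries.coeff_C_mul, PowerSeries.coeff_C_mul,
        PowerSeries.coeff_X_pow_mul', PowerSeries.coeff_X_pow_mul']
      by_cases h : k ≤ m
      · rw [if_pos (by omega : 2 * k ≤ 2 * m + 1), if_pos h, coeff_diff, coeff_A,
          show 2 * m + 1 - 2 * k = 2 * (m - k) + 1 by omega, if_neg (by
            rw [Nat.not_even_iff_odd]
            exact odd_two_mul_add_one _)]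
        push_cast
        ring
      · rw [if_neg (by omega : ¬ 2 * k ≤ 2 * m + 1), if_neg h]
        ring

theorem exists_intvec {T : ℕ} (u : Fin T → ℤ) (hu : ∀ i, u i ≠ 0)
    (hinj : Function.Injective fun i => u i ^ 2)
    (v : Fin T → ℤ) : ∃ (D : ℕ) (E : Fin T → Polynomial ℤ), 0 < D ∧ (∀ i, (E i).natDegree ≤ 3) ∧
      (∀ i, (E i).coeff 3 = D * v i) ∧
      ∀ n, n < 2 * T + 1 → PowerSeries.coeff n (∑ i, phi (E i) * A (u i : ℚ)) = 0 := by
  obtain ⟨e, hdeg, hco, hS⟩ := exists_vec (fun i => (u i : ℚ)) (fun i => by exact_mod_cast hu i)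
    (fun i j hij => hinj (by
      simp only at hij
      exact_mod_cast hij)) (fun i => (v i : ℚ))
  set D : ℕ := ∏ i, ∏ n ∈ range 4, ((e i).coeff n).den with hD
  have hDpos : 0 < D := Finset.prod_pos fun i _ => Finset.prod_pos fun n _ => Rat.den_pos _
  have hdvd : ∀ i n, ((e i).coeff n).den ∣ D := by
    intro i n
    rcases Nat.lt_or_ge n 4 with hn | hn
    · exact (Finset.dvd_prod_of_mem _ (Finset.mem_range.2 hn)).trans
        (Finset.dvd_prod_of_mem (fun i => ∏ n ∈ range 4, ((e i).coeff n).den)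
          (Finset.mem_univ i))
    · rw [Polynomial.coeff_eq_zero_of_natDegree_lt (lt_of_le_of_lt (hdeg i) hn)]
      simp
  choose E hE1 hE2 hE3 using fun i => exists_int (e i) D (hdvd i) (hdeg i)
  refine ⟨D, E, hDpos, hE1, ?_, ?_⟩
  · intro i
    have := hE2 i 3
    rw [hco i] at this
    exact_mod_cast this
  · intro n hn
    have h1 : ∑ i, phi (E i) * A (u i : ℚ) = PowerSeries.C (D : ℚ) * S (fun i => (u i : ℚ)) e := by
      unfold S
      rw [Finset.mul_sum]
      refine Finset.sum_congr rfl fun i _ => ?_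
      rw [hE3 i, mul_assoc]
    rw [h1, PowerSeries.coeff_C_mul, hS n hn, mul_zero]

/-- the divisibility for the `2 T` nodes `± u_i` -/
theorem rel_dvd {T : ℕ} (u : Fin T → ℤ) (E : Fin T → Polynomial ℤ)
    (h : ∀ n, n < 2 * T + 1 → PowerSeries.coeff n (∑ i, phi (E i) * A (u i : ℚ)) = 0)
    (X : ℤ) (hX : 1 ≤ X) : ∃ c c' : Fin T → ℕ, ∃ k k' : Fin T → ℤ,
      (∀ i, (c i : ℤ) = ((4 * T + 3).factorial : ℤ) ^ 2 * (E i).eval (X ^ 2) +
        X ^ (4 * T + 3) * k i) ∧
      (∀ i, (c' i : ℤ) = -(((4 * T + 3).factorial : ℤ) ^ 2 * (E i).eval (X ^ 2)) +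
        X ^ (4 * T + 3) * k' i) ∧
      X ^ (4 * T + 3) ∣ (∏ i, (1 + u i * X) ^ (c i)) * (∏ i, (1 + (-u i) * X) ^ (c' i)) - 1 := by
  set r : ℕ := 4 * T + 3 with hr
  set F : Fin T → Polynomial ℤ := fun i => Polynomial.expand ℤ 2 (E i) +
    Polynomial.C |(E i).eval (X ^ 2)| * Polynomial.X ^ r with hF
  set F' : Fin T → Polynomial ℤ := fun i => -Polynomial.expand ℤ 2 (E i) +
    Polynomial.C |(E i).eval (X ^ 2)| * Polynomial.X ^ r with hF'
  have hXr : 1 ≤ X ^ r := one_le_pow₀ hX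
  have hFe : ∀ i, (F i).eval X = (E i).eval (X ^ 2) + |(E i).eval (X ^ 2)| * X ^ r := by
    intro i
    simp only [hF, Polynomial.eval_add, Polynomial.expand_eval, Polynomial.eval_mul,
      Polynomial.eval_C, Polynomial.eval_pow, Polynomial.eval_X]
  have hFe' : ∀ i, (F' i).eval X = -(E i).eval (X ^ 2) + |(E i).eval (X ^ 2)| * X ^ r := by
    intro i
    simp only [hF', Polynomial.eval_add, Polynomial.eval_neg, Polynomial.expand_eval,
      Polynomial.eval_mul, Polynomial.eval_C, Polynomial.eval_pow, Polynomial.eval_X]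
  have hnn : ∀ i, 0 ≤ (F i).eval X := by
    intro i
    rw [hFe]
    have h1 := neg_abs_le ((E i).eval (X ^ 2))
    have h2 := abs_nonneg ((E i).eval (X ^ 2))
    nlinarith
  have hnn' : ∀ i, 0 ≤ (F' i).eval X := by
    intro i
    rw [hFe']
    have h1 := le_abs_self ((E i).eval (X ^ 2))
    have h2 := abs_nonneg ((E i).eval (X ^ 2))
    nlinarith
  set R2 : ℤ := (r.factorial : ℤ) ^ 2 with hR2
  have hR2p : 0 ≤ R2 := by positivity
  set c : Fin T → ℕ := fun i => (R2 * (F i).eval X).toNat with hc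
  set c' : Fin T → ℕ := fun i => (R2 * (F' i).eval X).toNat with hc'
  have hcc : ∀ i, (c i : ℤ) = R2 * (F i).eval X := fun i =>
    Int.toNat_of_nonneg (mul_nonneg hR2p (hnn i))
  have hcc' : ∀ i, (c' i : ℤ) = R2 * (F' i).eval X := fun i =>
    Int.toNat_of_nonneg (mul_nonneg hR2p (hnn' i))
  refine ⟨c, c', fun i => R2 * |(E i).eval (X ^ 2)|, fun i => R2 * |(E i).eval (X ^ 2)|, ?_, ?_, ?_⟩
  · intro i
    rw [hcc, hFe]
    ring
  · intro i
    rw [hcc', hFe']
    ring
  · have key := exp_dvd r (by omega) (Fin.append u (fun i => -u i)) (Fin.append F F')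
      (by
        intro n hn
        rw [Fin.sum_univ_add]
        simp only [Fin.append_left, Fin.append_right]
        rw [← Finset.sum_add_distrib]
        have h1 : ∀ i, phi (F i) * H902A.L (u i : ℚ) + phi (F' i) * H902A.L ((-u i : ℤ) : ℚ) =
            phi (Polynomial.expand ℤ 2 (E i)) * (H902A.L (u i : ℚ) - H902A.L (-(u i : ℚ))) +
            PowerSeries.X ^ r * (PowerSeries.C ((|(E i).eval (X ^ 2)| : ℤ) : ℚ) *
              (H902A.L (u i : ℚ) + H902A.L (-(u i : ℚ)))) := by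
          intro i
          simp only [hF, hF', map_add, map_neg, map_mul, map_pow, H902A.phi_C, H902A.phi_X]
          push_cast
          ring
        rw [Finset.sum_congr rfl fun i _ => h1 i, Finset.sum_add_distrib, ← Finset.mul_sum, map_add,
          PowerSeries.coeff_X_pow_mul', if_neg (by omega), add_zero, map_sum]
        rcases Nat.even_or_odd' n with ⟨m, hm | hm⟩
        · rw [hm]
          exact Finset.sum_eq_zero fun i _ => (coeff_expand (E i) (u i)).1 m
        · rw [hm, Finset.sum_congr rfl fun i _ => (coeff_expand (E i) (u i)).2 m,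
            ← Finset.mul_sum, ← map_sum, h m (by omega), mul_zero])
      X (Fin.append c c') (by
        intro i
        refine Fin.addCases (fun i => ?_) (fun i => ?_) i
        · simp only [Fin.append_left]
          exact hcc i
        · simp only [Fin.append_right]
          exact hcc' i)
    rw [Fin.prod_univ_add] at key
    simpa only [Fin.append_left, Fin.append_right] using key

/-- the relation between the units -/
theorem unit_rel {T : ℕ} (r : ℕ) (hr : r = 4 * T + 3) (u : Fin T → ℤ) (E : Fin T → Polynomial ℤ)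
    (h : ∀ n, n < 2 * T + 1 → PowerSeries.coeff n (∑ i, phi (E i) * A (u i : ℚ)) = 0)
    (d : ℤ) (P : ℕ) (hP : P.Prime) (δ : ℤ) (hδ : 1 ≤ δ)
    (hδd : (P : ℤ) ^ r ∣ δ ^ 2 - d)
    (V W : Fin T → (ZMod (P ^ r))ˣ)
    (hV : ∀ i, (V i : ZMod (P ^ r)) = ((1 + u i * (δ * P) : ℤ) : ZMod (P ^ r)))
    (hW : ∀ i, (W i : ZMod (P ^ r)) = ((1 - u i * (δ * P) : ℤ) : ZMod (P ^ r))) :
    ∏ i, (V i * (W i)⁻¹) ^ ((r.factorial : ℤ) ^ 2 * (E i).eval (d * (P : ℤ) ^ 2)) = 1 := by
  have hP1 : (1 : ℤ) ≤ P := by exact_mod_cast hP.one_lt.le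
  obtain ⟨c, c', k, k', hc, hc', hdvd⟩ := rel_dvd u E h (δ * P) (by nlinarith)
  rw [← hr] at hc hc' hdvd
  -- order of the units
  have hord : ∀ (U : (ZMod (P ^ r))ˣ) (a : ℤ),
      (U : ZMod (P ^ r)) = ((1 + a * P : ℤ) : ZMod (P ^ r)) → U ^ (P ^ r) = 1 := by
    intro U a hU
    have h1 : (P : ℤ) ∣ (1 + a * P) - 1 := ⟨a, by ring⟩
    have h2 := dvd_sub_pow_of_dvd_sub (R := ℤ) (p := P) h1 r
    rw [one_pow] at h2
    have h3 : ((P : ℤ) ^ r) ∣ (1 + a * P) ^ (P ^ r) - 1 :=
      (pow_dvd_pow _ (Nat.le_succ r)).trans h2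
    apply Units.ext
    rw [Units.val_pow_eq_pow_val, hU, Units.val_one]
    have h4 : (((1 + a * P) ^ (P ^ r) - 1 : ℤ) : ZMod (P ^ r)) = 0 := by
      rw [ZMod.intCast_zmod_eq_zero_iff_dvd]
      exact_mod_cast h3
    push_cast at h4
    push_cast
    linear_combination h4
  have hz : ∀ (U : (ZMod (P ^ r))ˣ) (a : ℤ),
      (U : ZMod (P ^ r)) = ((1 + a * P : ℤ) : ZMod (P ^ r)) → ∀ m n : ℤ,
      (P : ℤ) ^ r ∣ m - n → U ^ m = U ^ n := by
    intro U a hU m n hmn
    obtain ⟨s, hs⟩ := hmn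
    have h1 : m = n + ((P ^ r : ℕ) : ℤ) * s := by
      push_cast
      linarith
    rw [h1, zpow_add, zpow_mul, zpow_natCast, hord U a hU, one_zpow, mul_one]
  have hEd : ∀ i, (P : ℤ) ^ r ∣ (E i).eval ((δ * P) ^ 2) - (E i).eval (d * (P : ℤ) ^ 2) := by
    intro i
    refine dvd_trans ?_ (Polynomial.sub_dvd_eval_sub _ _ (E i))
    obtain ⟨s, hs⟩ := hδd
    refine ⟨s * (P : ℤ) ^ 2, ?_⟩
    linear_combination (P : ℤ) ^ 2 * hs
  have hdX : (P : ℤ) ^ r ∣ (δ * P) ^ r := by
    rw [mul_pow]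
    exact dvd_mul_left _ _
  have hVz : ∀ i, V i ^ (c i) = V i ^ ((r.factorial : ℤ) ^ 2 * (E i).eval (d * (P : ℤ) ^ 2)) := by
    intro i
    rw [← zpow_natCast]
    refine hz (V i) (u i * δ) (by rw [hV i]; congr 1; ring) _ _ ?_
    rw [hc i]
    have h1 := (hEd i).mul_left ((r.factorial : ℤ) ^ 2)
    have h2 := hdX.mul_right (k i)
    have h3 := dvd_add h1 h2
    rw [show ∀ a b c e : ℤ, a * (b - c) + e = a * b + e - a * c from fun a b c e => by ring] at h3
    exact h3
  have hWz : ∀ i, W i ^ (c' i) =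
      (W i)⁻¹ ^ ((r.factorial : ℤ) ^ 2 * (E i).eval (d * (P : ℤ) ^ 2)) := by
    intro i
    rw [← zpow_natCast, inv_zpow']
    refine hz (W i) (-(u i * δ)) (by rw [hW i]; congr 1; ring) _ _ ?_
    rw [hc' i]
    have h1 := (dvd_neg.2 (hEd i)).mul_left ((r.factorial : ℤ) ^ 2)
    have h2 := hdX.mul_right (k' i)
    have h3 := dvd_add h1 h2
    rw [show ∀ a b c e : ℤ, a * -(b - c) + e = -(a * b) + e - -(a * c) from
      fun a b c e => by ring] at h3
    exact h3
  have h3 : (((∏ i, (1 + u i * (δ * P)) ^ (c i)) * (∏ i, (1 + (-u i) * (δ * P)) ^ (c' i)) - 1 :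
      ℤ) : ZMod (P ^ r)) = 0 := by
    rw [ZMod.intCast_zmod_eq_zero_iff_dvd]
    have := hdX.trans hdvd
    exact_mod_cast this
  have h4 : (∏ i, V i ^ (c i)) * (∏ i, W i ^ (c' i)) = 1 := by
    apply Units.ext
    rw [Units.val_mul, Units.coe_prod, Units.coe_prod, Units.val_one]
    rw [Int.cast_sub, Int.cast_mul, Int.cast_prod, Int.cast_prod, Int.cast_one, sub_eq_zero] at h3
    rw [← h3]
    congr 1
    · refine Finset.prod_congr rfl fun i _ => ?_
      rw [Units.val_pow_eq_pow_val, hV i, Int.cast_pow]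
    · refine Finset.prod_congr rfl fun i _ => ?_
      rw [Units.val_pow_eq_pow_val, hW i, Int.cast_pow]
      congr 2
      ring
  rw [Finset.prod_congr rfl fun i _ => hVz i, Finset.prod_congr rfl fun i _ => hWz i,
    ← Finset.prod_mul_distrib] at h4
  rw [← h4]
  refine Finset.prod_congr rfl fun i _ => ?_
  rw [mul_zpow]

end Pool.Agent.H902F
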